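import Mathlib
import Pool.Agent.H340R2.LW1

set_option autoImplicit false

namespace Pool.Agent.H340R2.LW

open Polynomial Complex

theorem exists_galois (S : Finset ℂ) (hS : ∀ a ∈ S, IsAlgebraic ℚ a) :
    ∃ L : IntermediateField ℚ ℂ, FiniteDimensional ℚ L ∧ IsGalois ℚ L ∧ ∀ a ∈ S, a ∈ L := by
  classical
  set p : ℚ[X] := ∏ a ∈ S, minpoly ℚ a with hp
  have hp0 : p ≠ 0 := Finset.prod_ne_zero_iff.mpr (fun a ha => minpoly.ne_zero (hS a ha).isIntegral)
  have hspl : (p.map (algebraMap ℚ ℂ)).Splits := IsAlgClosed.splits _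
  haveI hsf : p.IsSplittingField ℚ (IntermediateField.adjoin ℚ (p.rootSet ℂ)) :=
    IntermediateField.adjoin_rootSet_isSplittingField hspl
  haveI : Normal ℚ (IntermediateField.adjoin ℚ (p.rootSet ℂ)) := Normal.of_isSplittingField p
  haveI : FiniteDimensional ℚ (IntermediateField.adjoin ℚ (p.rootSet ℂ)) :=
    Polynomial.IsSplittingField.finiteDimensional _ p
  refine ⟨IntermediateField.adjoin ℚ (p.rootSet ℂ), inferInstance, ?_, fun a ha => ?_⟩
  · exact { }
  · apply IntermediateField.subset_adjoin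
    rw [Polynomial.mem_rootSet]
    refine ⟨hp0, ?_⟩
    rw [hp, map_prod]
    exact Finset.prod_eq_zero ha (minpoly.aeval ℚ a)

section groupring

variable (L : IntermediateField ℚ ℂ)

/-- action on coefficients -/
noncomputable def cc (σ : L ≃ₐ[ℚ] L) : AddMonoidAlgebra L L →+* AddMonoidAlgebra L L :=
  AddMonoidAlgebra.mapRingHom L (σ : L →+* L)

/-- action on exponents -/
noncomputable def dd (σ : L ≃ₐ[ℚ] L) : AddMonoidAlgebra L L →+* AddMonoidAlgebra L L :=
  AddMonoidAlgebra.mapDomainRingHom L (σ : L →+ L)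

/-- the exponential character -/
noncomputable def ee : AddMonoidAlgebra L L →ₐ[L] ℂ :=
  AddMonoidAlgebra.lift L ℂ L
    { toFun := fun a => Complex.exp ((Multiplicative.toAdd a : L) : ℂ)
      map_one' := by simp
      map_mul' := fun a b => by simp [Complex.exp_add] }

theorem cc_coeff (σ : L ≃ₐ[ℚ] L) (x : AddMonoidAlgebra L L) (a : L) :
    (cc L σ x).coeff a = σ (x.coeff a) := by
  simp [cc, AddMonoidAlgebra.mapRingHom]

theorem dd_coeff (σ : L ≃ₐ[ℚ] L) (x : AddMonoidAlgebra L L) (a : L) :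
    (dd L σ x).coeff (σ a) = x.coeff a := by
  simp only [dd, AddMonoidAlgebra.mapDomainRingHom_apply, AddMonoidAlgebra.coeff_mapDomain]
  exact Finsupp.mapDomain_apply (f := fun b : L => (σ : L →+ L) b) σ.injective _ _

theorem ee_apply (x : AddMonoidAlgebra L L) :
    ee L x = x.coeff.sum (fun a b => (b : ℂ) * Complex.exp (a : ℂ)) := by
  rw [ee, AddMonoidAlgebra.lift_apply]
  rfl

theorem cc_inj (σ : L ≃ₐ[ℚ] L) : Function.Injective (cc L σ) := by
  intro x y hxy
  ext a
  have := congrArg (fun z => z.coeff a) hxy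
  simp only [cc_coeff] at this
  exact congrArg _ (σ.injective this)

theorem dd_inj (σ : L ≃ₐ[ℚ] L) : Function.Injective (dd L σ) := by
  intro x y hxy
  ext a
  have := congrArg (fun z => z.coeff (σ a)) hxy
  simp only [dd_coeff] at this
  exact congrArg _ this

theorem cc_mul (σ τ : L ≃ₐ[ℚ] L) (x : AddMonoidAlgebra L L) :
    cc L σ (cc L τ x) = cc L (σ * τ) x := by
  ext a
  simp only [cc_coeff, AlgEquiv.mul_apply]

theorem dd_mul (σ τ : L ≃ₐ[ℚ] L) (x : AddMonoidAlgebra L L) :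
    dd L σ (dd L τ x) = dd L (σ * τ) x := by
  ext a
  obtain ⟨b, rfl⟩ := (σ * τ).surjective a
  rw [dd_coeff, AlgEquiv.mul_apply, dd_coeff, dd_coeff]

theorem cc_dd (σ τ : L ≃ₐ[ℚ] L) (x : AddMonoidAlgebra L L) :
    cc L σ (dd L τ x) = dd L τ (cc L σ x) := by
  ext a
  obtain ⟨b, rfl⟩ := τ.surjective a
  rw [cc_coeff, dd_coeff, dd_coeff, cc_coeff]

theorem cc_one (x : AddMonoidAlgebra L L) : cc L 1 x = x := by
  ext a
  rw [cc_coeff]; simp

theorem dd_one (x : AddMonoidAlgebra L L) : dd L 1 x = x := by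
  ext a
  have := dd_coeff L 1 x a
  simpa using this

theorem no_relation [FiniteDimensional ℚ L] [IsGalois ℚ L] (x : AddMonoidAlgebra L L)
    (hx : x ≠ 0) : ee L x ≠ 0 := by
  classical
  intro hx0
  -- step 1
  set y : AddMonoidAlgebra L L := ∏ σ : L ≃ₐ[ℚ] L, cc L σ x with hy
  have hy0 : y ≠ 0 := Finset.prod_ne_zero_iff.mpr (fun σ _ => by
    intro h; exact hx (cc_inj L σ (by rw [h, map_zero])))
  have hye : ee L y = 0 := by
    rw [hy, map_prod]
    exact Finset.prod_eq_zero (Finset.mem_univ 1) (by rw [cc_one, hx0])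
  have hyf : ∀ σ, cc L σ y = y := by
    intro σ
    rw [hy, map_prod]
    simp only [cc_mul]
    exact Fintype.prod_equiv (Equiv.mulLeft σ) _ _ (fun τ => rfl)
  -- step 2
  set z : AddMonoidAlgebra L L := ∏ σ : L ≃ₐ[ℚ] L, dd L σ y with hz
  have hz0 : z ≠ 0 := Finset.prod_ne_zero_iff.mpr (fun σ _ => by
    intro h; exact hy0 (dd_inj L σ (by rw [h, map_zero])))
  have hze : ee L z = 0 := by
    rw [hz, map_prod]
    exact Finset.prod_eq_zero (Finset.mem_univ 1) (by rw [dd_one, hye])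
  have hzd : ∀ σ, dd L σ z = z := by
    intro σ
    rw [hz, map_prod]
    simp only [dd_mul]
    exact Fintype.prod_equiv (Equiv.mulLeft σ) _ _ (fun τ => rfl)
  have hzc : ∀ σ, cc L σ z = z := by
    intro σ
    rw [hz, map_prod]
    refine Finset.prod_congr rfl (fun τ _ => ?_)
    rw [cc_dd, hyf]
  -- step 3
  obtain ⟨a, ha⟩ : ∃ a, z.coeff a ≠ 0 := by
    by_contra hcon
    push Not at hcon
    apply hz0
    ext a
    simp [hcon a]
  set t : AddMonoidAlgebra L L := ∑ σ : L ≃ₐ[ℚ] L, AddMonoidAlgebra.single (-(σ a)) (1 : L) with ht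
  set u : AddMonoidAlgebra L L := z * t with hu
  have htd : ∀ σ, dd L σ t = t := by
    intro σ
    rw [ht, map_sum]
    have : ∀ τ : L ≃ₐ[ℚ] L, dd L σ (AddMonoidAlgebra.single (-(τ a)) (1 : L)) =
        AddMonoidAlgebra.single (-((σ * τ) a)) (1 : L) := by
      intro τ
      simp [dd]
    simp only [this]
    exact Fintype.sum_equiv (Equiv.mulLeft σ) _ _ (fun τ => rfl)
  have htc : ∀ σ, cc L σ t = t := by
    intro σ
    rw [ht, map_sum]
    refine Finset.sum_congr rfl (fun τ _ => ?_)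
    simp [cc]
  have hud : ∀ σ, dd L σ u = u := by
    intro σ; rw [hu, map_mul, hzd, htd]
  have huc : ∀ σ, cc L σ u = u := by
    intro σ; rw [hu, map_mul, hzc, htc]
  have hue : ee L u = 0 := by rw [hu, map_mul, hze, zero_mul]
  have hzinv : ∀ (σ : L ≃ₐ[ℚ] L) b, z.coeff (σ b) = z.coeff b := by
    intro σ b
    have := dd_coeff L σ z b
    rwa [hzd] at this
  have hu0 : u.coeff 0 ≠ 0 := by
    have h1 : u.coeff 0 = (Fintype.card (L ≃ₐ[ℚ] L) : L) * z.coeff a := by
      rw [hu, ht, Finset.mul_sum]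
      have h2 : (∑ σ : L ≃ₐ[ℚ] L, z * AddMonoidAlgebra.single (-(σ a)) (1 : L)).coeff 0 =
          ∑ σ : L ≃ₐ[ℚ] L, (z * AddMonoidAlgebra.single (-(σ a)) (1 : L)).coeff 0 := by
        simp [AddMonoidAlgebra.coeff_sum, Finsupp.finset_sum_apply]
      rw [h2]
      have h3 : ∀ σ : L ≃ₐ[ℚ] L, (z * AddMonoidAlgebra.single (-(σ a)) (1 : L)).coeff 0 =
          z.coeff a := by
        intro σ
        rw [AddMonoidAlgebra.coeff_mul_single_apply]
        simp [hzinv]
      simp [h3]
    rw [h1]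
    refine mul_ne_zero ?_ ha
    exact_mod_cast Fintype.card_ne_zero
  -- rational coefficients
  have hrat : ∀ b, ∃ q : ℚ, algebraMap ℚ L q = u.coeff b := by
    intro b
    refine IntermediateField.mem_bot.mp ((IsGalois.mem_bot_iff_fixed (F := ℚ) (E := L) _).mpr
      (fun σ => ?_))
    rw [← cc_coeff, huc]
  choose q hq using hrat
  have hqinv : ∀ (σ : L ≃ₐ[ℚ] L) b, q (σ b) = q b := by
    intro σ b
    apply (algebraMap ℚ L).injective
    rw [hq, hq]
    have := dd_coeff L σ u b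
    rwa [hud] at this
  -- common denominator
  set s0 : Finset L := u.coeff.support with hs0
  set M : ℕ := ∏ b ∈ s0, (q b).den with hM
  have hMpos : M ≠ 0 := Finset.prod_ne_zero_iff.mpr (fun b _ => (q b).den_ne_zero)
  have hqz : ∀ b, b ∉ s0 → q b = 0 := by
    intro b hb
    have : u.coeff b = 0 := by simpa [hs0] using hb
    apply (algebraMap ℚ L).injective
    rw [hq, this, map_zero]
  have hint : ∀ b, ∃ c : ℤ, (c : ℚ) = M * q b := by
    intro b
    by_cases hb : b ∈ s0
    · have h1 : M = (∏ b' ∈ s0.erase b, (q b').den) * (q b).den := by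
        rw [hM, Finset.prod_erase_mul _ _ hb]
      refine ⟨(∏ b' ∈ s0.erase b, ((q b').den : ℤ)) * (q b).num, ?_⟩
      rw [h1]
      push_cast
      have h2 : ((q b).den : ℚ) * q b = (q b).num := by
        rw [mul_comm]; exact Rat.mul_den_eq_num (q b)
      rw [mul_assoc, h2]
    · exact ⟨0, by rw [hqz b hb]; simp⟩
  choose c hc using hint
  have hcinv : ∀ (σ : L ≃ₐ[ℚ] L) b, c (σ b) = c b := by
    intro σ b
    have : (c (σ b) : ℚ) = c b := by rw [hc, hc, hqinv]
    exact_mod_cast this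
  have hcC : ∀ b, (c b : ℂ) = (M : ℂ) * (u.coeff b : ℂ) := by
    intro b
    have h1 : (c b : ℂ) = ((c b : ℚ) : ℂ) := by push_cast; rfl
    rw [h1, hc b, ← hq b]
    push_cast
    rfl
  have hw : c 0 ≠ 0 := by
    intro h0
    have h1 := hcC 0
    rw [h0, Int.cast_zero] at h1
    have h2 : (u.coeff 0 : ℂ) ≠ 0 := by simpa using hu0
    have h3 : (M : ℂ) ≠ 0 := by exact_mod_cast hMpos
    exact mul_ne_zero h3 h2 h1.symm
  refine core L (s0.erase 0) (fun b hb => (Finset.mem_erase.mp hb).1) ?_ c hcinv (c 0) hw ?_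
  · intro σ b hb
    obtain ⟨hb0, hb1⟩ := Finset.mem_erase.mp hb
    refine Finset.mem_erase.mpr ⟨?_, ?_⟩
    · intro h; apply hb0
      exact σ.injective (by rw [h, map_zero])
    · rw [hs0, Finsupp.mem_support_iff] at hb1 ⊢
      have := dd_coeff L σ u b
      rw [hud] at this
      rwa [this]
  · have h0mem : (0 : L) ∈ s0 := by rw [hs0, Finsupp.mem_support_iff]; exact hu0
    have h1 : ∑ b ∈ s0, (c b : ℂ) * Complex.exp (b : ℂ) = 0 := by
      have h2 : ∑ b ∈ s0, (c b : ℂ) * Complex.exp (b : ℂ) = (M : ℂ) * ee L u := by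
        rw [ee_apply, Finsupp.sum, Finset.mul_sum]
        refine Finset.sum_congr rfl (fun b _ => ?_)
        rw [hcC]; ring
      rw [h2, hue, mul_zero]
    rw [← Finset.add_sum_erase _ _ h0mem] at h1
    simpa using h1

end groupring

/-- **Lindemann-Weierstrass theorem**: if the `α i` are distinct algebraic numbers and the `β i`
are algebraic with `∑ β i * exp (α i) = 0`, then all the `β i` vanish. -/
theorem lindemann_weierstrass {ι : Type*} (s : Finset ι) (α β : ι → ℂ)
    (hα : ∀ i ∈ s, IsAlgebraic ℚ (α i)) (hβ : ∀ i ∈ s, IsAlgebraic ℚ (β i))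
    (hinj : Set.InjOn α s) (h : ∑ i ∈ s, β i * Complex.exp (α i) = 0) :
    ∀ i ∈ s, β i = 0 := by
  classical
  obtain ⟨L, hL1, hL2, hL3⟩ := exists_galois (s.image α ∪ s.image β) (by
    intro a ha
    rcases Finset.mem_union.mp ha with ha | ha
    · obtain ⟨i, hi, rfl⟩ := Finset.mem_image.mp ha; exact hα i hi
    · obtain ⟨i, hi, rfl⟩ := Finset.mem_image.mp ha; exact hβ i hi)
  have hαL : ∀ i ∈ s, α i ∈ L := fun i hi =>
    hL3 _ (Finset.mem_union_left _ (Finset.mem_image_of_mem _ hi))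
  have hβL : ∀ i ∈ s, β i ∈ L := fun i hi =>
    hL3 _ (Finset.mem_union_right _ (Finset.mem_image_of_mem _ hi))
  set α' : ι → L := fun i => if hi : i ∈ s then ⟨α i, hαL i hi⟩ else 0 with hα'
  set β' : ι → L := fun i => if hi : i ∈ s then ⟨β i, hβL i hi⟩ else 0 with hβ'
  have hα'' : ∀ i ∈ s, (α' i : ℂ) = α i := fun i hi => by simp [hα', hi]
  have hβ'' : ∀ i ∈ s, (β' i : ℂ) = β i := fun i hi => by simp [hβ', hi]
  set x : AddMonoidAlgebra L L := ∑ i ∈ s, AddMonoidAlgebra.single (α' i) (β' i) with hx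
  have hex : ee L x = 0 := by
    rw [hx, map_sum, ← h]
    refine Finset.sum_congr rfl (fun i hi => ?_)
    rw [ee, AddMonoidAlgebra.lift_single]
    rw [← hα'' i hi, ← hβ'' i hi]
    rfl
  have hx0 : x = 0 := by
    by_contra hne
    exact no_relation L x hne hex
  intro i hi
  have h1 : x.coeff (α' i) = β' i := by
    rw [hx]
    have h2 : (∑ j ∈ s, AddMonoidAlgebra.single (α' j) (β' j)).coeff (α' i) =
        ∑ j ∈ s, (AddMonoidAlgebra.single (α' j) (β' j)).coeff (α' i) := by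
      simp [AddMonoidAlgebra.coeff_sum, Finsupp.finset_sum_apply]
    rw [h2, Finset.sum_eq_single i]
    · simp
    · intro j hj hji
      rw [AddMonoidAlgebra.coeff_single, Finsupp.single_apply, if_neg]
      intro hcon
      apply hji
      apply hinj hj hi
      rw [← hα'' j hj, ← hα'' i hi, hcon]
    · intro h; exact absurd hi h
  rw [hx0] at h1
  rw [← hβ'' i hi, ← h1]
  simp

end Pool.Agent.H340R2.LW
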