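import Mathlib
import Pool.Agent.H340R2.LW2

set_option autoImplicit false

/-! # Lindemann-Weierstrass and its classical corollaries -/

namespace Pool.Agent.H340R2.LW

open Polynomial Complex

/-- Hermite-Lindemann: `exp α` is transcendental for algebraic `α ≠ 0`. -/
theorem transcendental_cexp (α : ℂ) (hα : IsAlgebraic ℚ α) (h0 : α ≠ 0) :
    Transcendental ℚ (Complex.exp α) := by
  intro hexp
  have := lindemann_weierstrass (Finset.univ : Finset (Fin 2)) ![0, α] ![-Complex.exp α, 1]
    (by
      intro i _
      fin_cases i
      · exact isAlgebraic_zero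
      · exact hα)
    (by
      intro i _
      fin_cases i
      · exact hexp.neg
      · exact isAlgebraic_one)
    (by
      intro i _ j _ hij
      fin_cases i <;> fin_cases j <;> simp_all)
    (by simp [Fin.sum_univ_two])
  have h1 := this 1 (Finset.mem_univ _)
  simp at h1

theorem transcendental_exp_one_complex : Transcendental ℚ (Complex.exp 1) :=
  transcendental_cexp 1 isAlgebraic_one one_ne_zero

theorem isAlgebraic_I : IsAlgebraic ℚ Complex.I := by
  have : IsIntegral ℚ Complex.I := by
    refine ⟨X ^ 2 + 1, by monicity!, by simp⟩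
  exact this.isAlgebraic

/-- `e` is transcendental. -/
theorem transcendental_exp_one : Transcendental ℚ (Real.exp 1) := by
  intro h
  have h1 : IsAlgebraic ℚ ((Real.exp 1 : ℝ) : ℂ) := h.algebraMap (A := ℂ)
  apply transcendental_exp_one_complex
  simpa using h1

/-- `π` is transcendental. -/
theorem transcendental_pi_complex : Transcendental ℚ (Real.pi : ℂ) := by
  intro h
  have h1 : IsAlgebraic ℚ ((Real.pi : ℂ) * Complex.I) := h.mul isAlgebraic_I
  have h2 := transcendental_cexp _ h1 (by
    simp [Real.pi_ne_zero])
  rw [Complex.exp_pi_mul_I] at h2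
  exact h2 isAlgebraic_one.neg

theorem transcendental_pi : Transcendental ℚ Real.pi := by
  intro h
  exact transcendental_pi_complex (h.algebraMap (A := ℂ))

/-- linear form version over the algebraic numbers -/
theorem exp_linearIndependent_aux (r s a b c : ℂ) (hr : IsAlgebraic ℚ r) (hs : IsAlgebraic ℚ s)
    (hr0 : r ≠ 0) (hs0 : s ≠ 0) (hrs : r ≠ s)
    (ha : IsAlgebraic ℚ a) (hb : IsAlgebraic ℚ b) (hc : IsAlgebraic ℚ c)
    (h : a + b * Complex.exp r + c * Complex.exp s = 0) : a = 0 ∧ b = 0 ∧ c = 0 := by
  have := lindemann_weierstrass (Finset.univ : Finset (Fin 3)) ![0, r, s] ![a, b, c]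
    (by
      intro i _
      fin_cases i
      · exact isAlgebraic_zero
      · exact hr
      · exact hs)
    (by
      intro i _
      fin_cases i
      · exact ha
      · exact hb
      · exact hc)
    (by
      intro i _ j _ hij
      fin_cases i <;> fin_cases j <;> simp_all [eq_comm])
    (by simp [Fin.sum_univ_three, h])
  exact ⟨this 0 (Finset.mem_univ _), this 1 (Finset.mem_univ _), this 2 (Finset.mem_univ _)⟩

end Pool.Agent.H340R2.LW
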