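import Pool.Agent.H340R2.Stab

/-!
# General independence lemma for stabilisers (TEAM-TR, strong six exponentials)
-/

open MvPolynomial

namespace Pool.Agent.H340R2.Stab

open Pool.Agent.H364R2

/-- common eigenvector of an arbitrary family of commuting operators -/
theorem common_eigen_set {ι M : Type*} [AddCommGroup M] [Module ℂ M] (T : ι → M →ₗ[ℂ] M)
    (hcomm : ∀ i j v, T i (T j v) = T j (T i v)) (n : ℕ) :
    ∀ (V : Submodule ℂ M), V ≠ ⊥ → FiniteDimensional ℂ V → Module.finrank ℂ V ≤ n →
      (∀ i, ∀ v ∈ V, T i v ∈ V) →
      ∃ v ∈ V, v ≠ 0 ∧ ∀ i, ∃ ν : ℂ, T i v = ν • v := by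
  classical
  induction n with
  | zero =>
    intro V hV hfd hn _
    exact absurd (Submodule.finrank_eq_zero.mp (Nat.le_zero.mp hn)) hV
  | succ n IH =>
    intro V hV hfd hn hst
    have hNt : Nontrivial V := Submodule.nontrivial_iff_ne_bot.mpr hV
    by_cases hall : ∀ i, ∃ ν : ℂ, ∀ v ∈ V, T i v = ν • v
    · obtain ⟨v, hv, hv0⟩ := Submodule.exists_mem_ne_zero_of_ne_bot hV
      refine ⟨v, hv, hv0, ?_⟩
      intro i
      obtain ⟨ν, hν⟩ := hall i
      exact ⟨ν, hν v hv⟩
    · push Not at hall
      obtain ⟨i, hi⟩ := hall
      have hmaps : ∀ v ∈ V, T i v ∈ V := hst i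
      obtain ⟨ν, hν⟩ := Module.End.exists_eigenvalue ((T i).restrict hmaps)
      obtain ⟨w, hw⟩ := hν.exists_hasEigenvector
      have hw1 : T i (w : M) = ν • (w : M) := by
        have := hw.apply_eq_smul
        have h2 := congrArg (Subtype.val) this
        simpa using h2
      have hw0 : (w : M) ≠ 0 := by
        intro h
        exact hw.2 (Subtype.ext h)
      let V' : Submodule ℂ M := V ⊓ LinearMap.ker (T i - ν • LinearMap.id)
      have hV'mem : ∀ v, v ∈ V' ↔ v ∈ V ∧ T i v = ν • v := by
        intro v
        simp only [V', Submodule.mem_inf, LinearMap.mem_ker, LinearMap.sub_apply,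
          LinearMap.smul_apply, LinearMap.id_apply, sub_eq_zero]
      have hV'0 : V' ≠ ⊥ := by
        intro h
        have : (w : M) ∈ V' := (hV'mem _).mpr ⟨w.2, hw1⟩
        rw [h] at this
        exact hw0 (by simpa using this)
      have hfd' : FiniteDimensional ℂ V' :=
        Submodule.finiteDimensional_of_le (inf_le_left : V' ≤ V)
      have hlt : V' < V := by
        refine lt_of_le_of_ne inf_le_left ?_
        intro h
        obtain ⟨v, hv, hvne⟩ := hi ν
        rw [← h] at hv
        exact hvne ((hV'mem _).mp hv).2
      have hrank : Module.finrank ℂ V' ≤ n := by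
        have := Submodule.finrank_lt_finrank_of_lt hlt
        omega
      have hst' : ∀ j, ∀ v ∈ V', T j v ∈ V' := by
        intro j v hv
        rw [hV'mem] at hv ⊢
        refine ⟨hst j v hv.1, ?_⟩
        rw [hcomm i j v, hv.2, map_smul]
      obtain ⟨v, hv, hv0, hvs⟩ := IH V' hV'0 hfd' hrank hst'
      rw [hV'mem] at hv
      exact ⟨v, hv.1, hv0, hvs⟩

variable {σ : Type} [Fintype σ] [DecidableEq σ]

theorem der_mem_supported (add : σ → Bool) (w : σ → ℂ) (E : Set σ) (f : MvPolynomial σ ℂ)
    (hf : f ∈ supported ℂ E) : der add w f ∈ supported ℂ E := by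
  rw [mem_supported_iff_coeff] at *
  intro m hm i hi
  rw [coeff_der] at hm
  obtain ⟨j, _, hj⟩ := Finset.exists_ne_zero_of_sum_ne_zero hm
  split_ifs at hj with haj
  · have h1 : coeff (m + Finsupp.single j 1) f ≠ 0 := by
      intro h; rw [h, mul_zero] at hj; exact hj rfl
    have := hf _ h1 i hi
    rw [Finsupp.add_apply] at this
    omega
  · have h1 : coeff m f ≠ 0 := by
      intro h; rw [h, mul_zero] at hj; exact hj rfl
    exact hf _ h1 i hi

theorem totalDegree_der_le (add : σ → Bool) (w : σ → ℂ) (f : MvPolynomial σ ℂ) (d : ℕ)
    (hf : f.totalDegree ≤ d) : (der add w f).totalDegree ≤ d := by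
  rw [totalDegree_le_iff_coeff] at *
  intro m hm
  rw [coeff_der] at hm
  obtain ⟨j, _, hj⟩ := Finset.exists_ne_zero_of_sum_ne_zero hm
  split_ifs at hj with haj
  · have h1 : coeff (m + Finsupp.single j 1) f ≠ 0 := by
      intro h; rw [h, mul_zero] at hj; exact hj rfl
    have := hf _ h1
    rw [map_add] at this
    omega
  · have h1 : coeff m f ≠ 0 := by
      intro h; rw [h, mul_zero] at hj; exact hj rfl
    exact hf _ h1

theorem der_tr_comm (add : σ → Bool) (w g : σ → ℂ) (f : MvPolynomial σ ℂ) :
    der add w (tr add g f) = tr add g (der add w f) := by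
  have hXd : ∀ j, der add w (X j) = if add j then C (w j) else C (w j) * X j := by
    intro j
    rw [der, mkDerivation_X]
  have hXt : ∀ j, tr add g (X j) = if add j then X j + C (g j) else C (g j) * X j := by
    intro j
    rw [tr, aeval_X]
  have hC : ∀ c : ℂ, tr add g (C c) = C c := by
    intro c
    rw [← algebraMap_eq, AlgHom.commutes]
  induction f using MvPolynomial.induction_on with
  | C a => rw [hC, derivation_C, map_zero]
  | add p q hp hq => simp only [map_add, hp, hq]
  | mul_X p j hp =>
    rw [map_mul, Derivation.leibniz, Derivation.leibniz, hp, hXt, hXd]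
    simp only [smul_eq_mul, map_add, map_mul, hXt]
    by_cases ha : add j = true
    · rw [if_pos ha, if_pos ha, map_add, derivation_C, hXd, if_pos ha, hC, add_zero]
    · rw [if_neg ha, if_neg ha, Derivation.leibniz, derivation_C, hXd, if_neg ha, map_mul, hC,
        hXt, if_neg ha]
      simp only [smul_eq_mul]
      ring

/-- General independence lemma: a `G`-prime which is stable (on the variables `E`) under a set of
invariant derivations `WP` and a set of translations `GP` which separate the additive and the
multiplicative coordinates in `E` is independent on `E`. -/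
theorem indep_of_stab_gen (add : σ → Bool) (P : Ideal (MvPolynomial σ ℂ)) (hP : GPrime add P)
    (E : Set σ) (WP GP : Set (σ → ℂ))
    (hW : ∀ w ∈ WP, ∀ f ∈ supported ℂ E, f ∈ P → der add w f ∈ P)
    (hGG : ∀ g ∈ GP, IsG add g)
    (hG : ∀ g ∈ GP, ∀ f ∈ supported ℂ E, f ∈ P → tr add g f ∈ P)
    (hi : ∀ l : σ → ℂ, (∀ j, (j ∉ E ∨ add j = false) → l j = 0) →
      (∀ w ∈ WP, ∑ j, l j * w j = 0) → (∀ g ∈ GP, ∑ j, l j * g j = 0) → ∀ j, l j = 0)
    (hii : ∀ b : σ → ℤ, (∀ j, (j ∉ E ∨ add j = true) → b j = 0) →
      (∀ w ∈ WP, ∑ j, w j * (b j : ℂ) = 0) →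
      (∀ g ∈ GP, ∏ j, (if add j then 1 else g j ^ (b j)) = 1) → ∀ j, b j = 0) :
    Indep P E := by
  classical
  by_contra hE
  unfold Indep at hE
  push Not at hE
  obtain ⟨f0, hf0E, hf0P, hf00⟩ := hE
  let V : Submodule ℂ (MvPolynomial σ ℂ) :=
    (Subalgebra.toSubmodule (supported ℂ E)) ⊓ (P.restrictScalars ℂ) ⊓
      restrictTotalDegree σ ℂ f0.totalDegree
  have hVmem : ∀ f, f ∈ V ↔ (f ∈ supported ℂ E ∧ f ∈ P) ∧ f.totalDegree ≤ f0.totalDegree := by
    intro f
    simp only [V, Submodule.mem_inf, Subalgebra.mem_toSubmodule, Submodule.restrictScalars_mem,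
      mem_restrictTotalDegree]
  have hV0 : V ≠ ⊥ := by
    intro h
    have : f0 ∈ V := (hVmem _).mpr ⟨⟨hf0E, hf0P⟩, le_refl _⟩
    rw [h] at this
    exact hf00 (by simpa using this)
  have hfd : FiniteDimensional ℂ V :=
    Submodule.finiteDimensional_of_le (inf_le_right : V ≤ restrictTotalDegree σ ℂ f0.totalDegree)
  -- the family of commuting operators
  let T : (WP ⊕ GP) → MvPolynomial σ ℂ →ₗ[ℂ] MvPolynomial σ ℂ := fun i =>
    match i with
    | Sum.inl w => ((der add w.1 : Derivation ℂ (MvPolynomial σ ℂ)
      (MvPolynomial σ ℂ)) : MvPolynomial σ ℂ →ₗ[ℂ] MvPolynomial σ ℂ)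
    | Sum.inr g => (tr add g.1).toLinearMap
  have hTl : ∀ (w : WP) (f : MvPolynomial σ ℂ), T (Sum.inl w) f = der add w.1 f := fun _ _ => rfl
  have hTr : ∀ (g : GP) (f : MvPolynomial σ ℂ), T (Sum.inr g) f = tr add g.1 f := fun _ _ => rfl
  have hcomm : ∀ i j v, T i (T j v) = T j (T i v) := by
    intro i j v
    rcases i with w | g <;> rcases j with w' | g'
    · rw [hTl, hTl, hTl, hTl]; exact der_comm add _ _ v
    · rw [hTl, hTr, hTr, hTl]; exact der_tr_comm add _ _ v
    · rw [hTl, hTr, hTr, hTl]; exact (der_tr_comm add _ _ v).symm
    · rw [hTr, hTr, hTr, hTr]; exact tr_comm add _ _ v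
  have hst : ∀ i, ∀ f ∈ V, T i f ∈ V := by
    intro i f hf
    rw [hVmem] at hf ⊢
    rcases i with w | g
    · rw [hTl]
      exact ⟨⟨der_mem_supported add _ E f hf.1.1, hW _ w.2 f hf.1.1 hf.1.2⟩,
        totalDegree_der_le add _ f _ hf.2⟩
    · rw [hTr]
      exact ⟨⟨tr_mem_supported add _ E f hf.1.1, hG _ g.2 f hf.1.1 hf.1.2⟩,
        totalDegree_tr_le add _ f _ hf.2⟩
  obtain ⟨f, hfV, hf0, hfeig⟩ := common_eigen_set T hcomm _ V hV0 hfd (le_refl _) hst
  rw [hVmem] at hfV
  obtain ⟨⟨hfE, hfP⟩, -⟩ := hfV
  rw [mem_supported_iff_coeff] at hfE
  have hsupp : f.support.Nonempty := support_nonempty.mpr hf0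
  obtain ⟨m₀, hm₀, hmax⟩ := Finset.exists_max_image f.support (adeg add) hsupp
  have hm₀' : coeff m₀ f ≠ 0 := mem_support_iff.mp hm₀
  -- characters on top monomials: derivations
  have claim1 : ∀ w ∈ WP, ∀ ν : ℂ, der add w f = ν • f → ∀ m, coeff m f ≠ 0 →
      adeg add m₀ ≤ adeg add m → ∑ j, (if add j then 0 else w j * (m j : ℂ)) = ν := by
    intro w hw ν hν m hm hmm
    have h1 := congrArg (coeff m) hν
    rw [coeff_der, coeff_smul, smul_eq_mul] at h1
    have h2 : ∀ j, (if add j then w j * ((m j : ℂ) + 1) * coeff (m + Finsupp.single j 1) f
        else w j * (m j : ℂ) * coeff m f) =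
        (if add j then 0 else w j * (m j : ℂ)) * coeff m f := by
      intro j
      split_ifs with haj
      · have : coeff (m + Finsupp.single j 1) f = 0 := by
          by_contra hne
          have h3 := hmax _ (mem_support_iff.mpr hne)
          rw [adeg_add_single add m j haj] at h3
          omega
        rw [this]; ring
      · rfl
    simp_rw [h2] at h1
    rw [← Finset.sum_mul] at h1
    exact mul_right_cancel₀ hm h1
  -- if `s` contributes to the coefficient of `n` and `adeg s ≤ adeg n` then `s = n`
  have heq_of : ∀ (g : σ → ℂ) (s n : σ →₀ ℕ), ∏ j, trc add g s n j ≠ 0 →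
      adeg add s ≤ adeg add n → s = n := by
    intro g s n hne hle
    have h2 := prod_trc_ne_zero add g s n hne
    ext j
    by_cases haj : add j = true
    · by_contra hjne
      have hlt : n j < s j := lt_of_le_of_ne (h2 j).1 (fun h => hjne h.symm)
      have : adeg add n < adeg add s := by
        unfold adeg
        apply Finset.sum_lt_sum
        · intro i _
          split_ifs
          · exact (h2 i).1
          · exact le_refl _
        · exact ⟨j, Finset.mem_univ _, by rw [if_pos haj, if_pos haj]; exact hlt⟩
      omega
    · exact (h2 j).2 (by simpa using haj)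
  -- characters on top monomials: translations
  have claim1' : ∀ g ∈ GP, ∀ ν : ℂ, tr add g f = ν • f → ∀ m, coeff m f ≠ 0 →
      adeg add m₀ ≤ adeg add m → ∏ j, (if add j then 1 else g j ^ (m j)) = ν := by
    intro g hg ν hν m hm hmm
    have h1 := congrArg (coeff m) hν
    rw [coeff_tr add g f m _ (Finset.Subset.refl _), coeff_smul, smul_eq_mul] at h1
    rw [Finset.sum_eq_single m] at h1
    · rw [mul_comm, prod_trc_self] at h1
      exact mul_right_cancel₀ hm h1
    · intro s hs hsm
      by_contra hne
      exact hsm (heq_of g s m (right_ne_zero_of_mul hne) ((hmax s hs).trans hmm))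
    · intro h
      exact absurd (mem_support_iff.mpr hm) h
  -- all top monomials have the same multiplicative part
  have claim2 : ∀ m, coeff m f ≠ 0 → adeg add m₀ ≤ adeg add m →
      ∀ j, add j = false → m j = m₀ j := by
    intro m hm hmm
    have hb := hii (fun j => if add j then 0 else (m j : ℤ) - (m₀ j : ℤ)) (by
      intro j hj
      rcases hj with hj | hj
      · show (if add j then 0 else (m j : ℤ) - (m₀ j : ℤ)) = 0
        rw [hfE m hm j hj, hfE m₀ hm₀' j hj]; simp
      · show (if add j then 0 else (m j : ℤ) - (m₀ j : ℤ)) = 0
        rw [if_pos hj]) (by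
      intro w hw
      obtain ⟨ν, hν⟩ := hfeig (Sum.inl ⟨w, hw⟩)
      rw [hTl] at hν
      have h1 := claim1 w hw ν hν m hm hmm
      have h2 := claim1 w hw ν hν m₀ hm₀' (le_refl _)
      have h3 := h1.trans h2.symm
      rw [← sub_eq_zero, ← Finset.sum_sub_distrib] at h3
      rw [← h3]
      apply Finset.sum_congr rfl
      intro j _
      split_ifs with haj
      · simp
      · push_cast; ring) (by
      intro δ hδ
      obtain ⟨ν, hν⟩ := hfeig (Sum.inr ⟨δ, hδ⟩)
      rw [hTr] at hν
      have h1 := claim1' δ hδ ν hν m hm hmm
      have h2 := claim1' δ hδ ν hν m₀ hm₀' (le_refl _)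
      have h3 : ∏ j, (if add j then (1 : ℂ) else δ j ^ (if add j then (0 : ℤ) else (m j : ℤ) - (m₀ j : ℤ)))
          = (∏ j, (if add j then 1 else δ j ^ (m j))) / (∏ j, (if add j then 1 else δ j ^ (m₀ j))) := by
        rw [← Finset.prod_div_distrib]
        apply Finset.prod_congr rfl
        intro j _
        split_ifs with haj
        · simp
        · rw [zpow_sub₀ (hGG δ hδ j (by simpa using haj)), zpow_natCast, zpow_natCast]
      rw [h3, h1, h2]
      apply div_self
      rw [← h2]
      apply Finset.prod_ne_zero_iff.mpr
      intro j _
      split_ifs with haj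
      · exact one_ne_zero
      · exact pow_ne_zero _ (hGG δ hδ j (by simpa using haj)))
    intro j hj
    have := hb j
    rw [if_neg (by simp [hj])] at this
    omega
  -- the top additive degree is zero
  have claim3 : adeg add m₀ = 0 := by
    by_contra hne
    have hne' := hne
    unfold adeg at hne'
    obtain ⟨j, _, hj⟩ := Finset.exists_ne_zero_of_sum_ne_zero hne'
    split_ifs at hj with haj
    swap
    · exact hj rfl
    let n : σ →₀ ℕ := m₀ - Finsupp.single j 1
    have hn : n + Finsupp.single j 1 = m₀ := by
      apply tsub_add_cancel_of_le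
      rw [Finsupp.single_le_iff]
      omega
    have hndeg : adeg add n + 1 = adeg add m₀ := by
      rw [← hn, adeg_add_single add n j haj]
    -- the multiplicative part of `n` is that of `m₀`
    have hnmult : ∀ i, add i = false → n i = m₀ i := by
      intro i hi'
      have hij : i ≠ j := by
        intro h; rw [h, haj] at hi'; exact absurd hi' (by simp)
      rw [← hn, Finsupp.add_apply, Finsupp.single_eq_of_ne hij, add_zero]
    have hl := hi (fun i => if add i then ((n i : ℂ) + 1) * coeff (n + Finsupp.single i 1) f else 0)
      (by
        intro i hi'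
        rcases hi' with hi' | hi'
        · show (if add i then ((n i : ℂ) + 1) * coeff (n + Finsupp.single i 1) f else 0) = 0
          have : coeff (n + Finsupp.single i 1) f = 0 := by
            by_contra hne
            have h3 := hfE _ hne i hi'
            simp at h3
          rw [this]; simp
        · show (if add i then ((n i : ℂ) + 1) * coeff (n + Finsupp.single i 1) f else 0) = 0
          simp [hi'])
      (by
        intro w hw
        obtain ⟨ν, hν⟩ := hfeig (Sum.inl ⟨w, hw⟩)
        rw [hTl] at hν
        have hc1 := claim1 w hw ν hν m₀ hm₀' (le_refl _)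
        have h1 := congrArg (coeff n) hν
        rw [coeff_der, coeff_smul, smul_eq_mul] at h1
        have h2 : ∀ i, (if add i then w i * ((n i : ℂ) + 1) * coeff (n + Finsupp.single i 1) f
            else w i * (n i : ℂ) * coeff n f) =
            (if add i then 0 else w i * (m₀ i : ℂ)) * coeff n f +
            (if add i then ((n i : ℂ) + 1) * coeff (n + Finsupp.single i 1) f else 0) * w i := by
          intro i
          split_ifs with hai
          · ring
          · rw [hnmult i (by simpa using hai)]; ring
        simp_rw [h2] at h1
        rw [Finset.sum_add_distrib, ← Finset.sum_mul, hc1] at h1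
        linear_combination h1)
      (by
        intro g hg
        obtain ⟨ν, hν⟩ := hfeig (Sum.inr ⟨g, hg⟩)
        rw [hTr] at hν
        have hc1 := claim1' g hg ν hν m₀ hm₀' (le_refl _)
        have hchar : ∏ i, (if add i then 1 else g i ^ (n i)) = ν := by
          rw [← hc1]
          apply Finset.prod_congr rfl
          intro i _
          split_ifs with hai
          · rfl
          · rw [hnmult i (by simpa using hai)]
        have hν0 : ν ≠ 0 := by
          rw [← hchar]
          apply Finset.prod_ne_zero_iff.mpr
          intro i _
          split_ifs with hai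
          · exact one_ne_zero
          · exact pow_ne_zero _ (hGG g hg i (by simpa using hai))
        have h1 := congrArg (coeff n) hν
        let S : Finset (σ →₀ ℕ) := insert n ((Finset.univ.filter (fun i => add i = true)).image
          (fun i => n + Finsupp.single i 1))
        rw [coeff_tr add g f n (f.support ∪ S) Finset.subset_union_left, coeff_smul,
          smul_eq_mul] at h1
        have h2 : ∑ s ∈ f.support ∪ S, coeff s f * ∏ i, trc add g s n i =
            ∑ s ∈ S, coeff s f * ∏ i, trc add g s n i := by
          symm
          apply Finset.sum_subset Finset.subset_union_right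
          intro s _ hs
          by_contra hne
          have hs' : coeff s f ≠ 0 := left_ne_zero_of_mul hne
          have hp := right_ne_zero_of_mul hne
          have h3 := prod_trc_ne_zero add g s n hp
          have hsm := hmax s (mem_support_iff.mpr hs')
          rcases Nat.lt_or_ge (adeg add n) (adeg add s) with hlt | hge
          · -- adeg s = adeg n + 1
            have hsn : adeg add s = adeg add n + 1 := by omega
            -- find the coordinate
            have hexi : ∃ i, add i = true ∧ n i < s i := by
              by_contra hall
              push Not at hall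
              have : adeg add s ≤ adeg add n := by
                unfold adeg
                apply Finset.sum_le_sum
                intro i _
                split_ifs with hai
                · exact hall i hai
                · exact le_refl _
              omega
            obtain ⟨i, hai, hlti⟩ := hexi
            apply hs
            have hle : n + Finsupp.single i 1 ≤ s := by
              intro k
              by_cases hki : k = i
              · subst hki
                rw [Finsupp.add_apply, Finsupp.single_eq_same]
                omega
              · rw [Finsupp.add_apply, Finsupp.single_eq_of_ne hki, add_zero]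
                exact (h3 k).1
            have : s = n + Finsupp.single i 1 := by
              ext k
              by_cases hak : add k = true
              · by_contra hkne
                have hltk : (n + Finsupp.single i 1 : σ →₀ ℕ) k < s k :=
                  lt_of_le_of_ne (hle k) (fun h => hkne h.symm)
                have : adeg add (n + Finsupp.single i 1) < adeg add s := by
                  unfold adeg
                  apply Finset.sum_lt_sum
                  · intro k' _
                    split_ifs
                    · exact hle k'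
                    · exact le_refl _
                  · exact ⟨k, Finset.mem_univ _, by
                      rw [if_pos hak, if_pos hak]; exact hltk⟩
                rw [adeg_add_single add n i hai] at this
                omega
              · have hki : k ≠ i := by
                  intro h; rw [h] at hak; exact hak hai
                rw [Finsupp.add_apply, Finsupp.single_eq_of_ne hki, add_zero]
                exact (h3 k).2 (by simpa using hak)
            rw [this]
            apply Finset.mem_insert_of_mem
            rw [Finset.mem_image]
            exact ⟨i, Finset.mem_filter.mpr ⟨Finset.mem_univ _, hai⟩, rfl⟩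
          · apply hs
            rw [heq_of g s n hp hge]
            exact Finset.mem_insert_self _ _
        have hnotin : n ∉ ((Finset.univ.filter (fun i => add i = true)).image
          (fun i => n + Finsupp.single i 1)) := by
          intro h
          rw [Finset.mem_image] at h
          obtain ⟨i, _, h⟩ := h
          have h' := congrArg (fun s : σ →₀ ℕ => s i) h
          simp at h'
        have hinj : Set.InjOn (fun i => n + Finsupp.single i 1)
            (Finset.univ.filter (fun i => add i = true) : Finset σ) := by
          intro i _ i' _ h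
          have h' : (Finsupp.single i 1 : σ →₀ ℕ) = Finsupp.single i' 1 := add_left_cancel h
          exact Finsupp.single_left_injective one_ne_zero h'
        rw [h2, Finset.sum_insert hnotin, Finset.sum_image hinj, prod_trc_self, hchar] at h1
        -- value of the product for `n + e_i`
        have h4 : ∀ i, add i = true → ∏ k, trc add g (n + Finsupp.single i 1) n k =
            ν * (g i * ((n i : ℂ) + 1)) := by
          intro i hai
          rw [← hchar, ← Finset.mul_prod_erase Finset.univ _ (Finset.mem_univ i),
            ← Finset.mul_prod_erase Finset.univ (fun k => if add k then 1 else g k ^ (n k))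
              (Finset.mem_univ i), if_pos hai, one_mul]
          have h5 : trc add g (n + Finsupp.single i 1) n i = g i * ((n i : ℂ) + 1) := by
            unfold trc
            rw [if_pos hai, Finsupp.add_apply, Finsupp.single_eq_same]
            simp
          rw [h5, mul_comm]
          congr 1
          apply Finset.prod_congr rfl
          intro k hk
          have hki := Finset.ne_of_mem_erase hk
          have h6 : (n + Finsupp.single i 1 : σ →₀ ℕ) k = n k := by
            rw [Finsupp.add_apply, Finsupp.single_eq_of_ne hki, add_zero]
          unfold trc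
          rw [h6]
          by_cases hak : add k = true
          · rw [if_pos hak, if_pos hak]; simp
          · rw [if_neg hak, if_neg hak, if_pos rfl]
        have h5 : ∑ i ∈ Finset.univ.filter (fun i => add i = true),
            coeff (n + Finsupp.single i 1) f * ∏ k, trc add g (n + Finsupp.single i 1) n k =
            ν * ∑ i, (if add i then ((n i : ℂ) + 1) * coeff (n + Finsupp.single i 1) f else 0)
              * g i := by
          rw [Finset.mul_sum, Finset.sum_filter]
          apply Finset.sum_congr rfl
          intro i _
          split_ifs with hai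
          · rw [h4 i hai]; ring
          · ring
        rw [h5] at h1
        have h6 : ν * ∑ i, (if add i then ((n i : ℂ) + 1) * coeff (n + Finsupp.single i 1) f
            else 0) * g i = 0 := by
          linear_combination h1
        exact (mul_eq_zero.mp h6).resolve_left hν0)
    have hlj := hl j
    rw [if_pos haj, hn] at hlj
    have h4 : ((n j : ℂ) + 1) ≠ 0 := by
      exact_mod_cast Nat.succ_ne_zero (n j)
    exact (mul_ne_zero h4 hm₀') hlj
  have hadd0 : ∀ m, coeff m f ≠ 0 → ∀ j, add j = true → m j = 0 := by
    intro m hm j hj
    have h1 := hmax m (mem_support_iff.mpr hm)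
    rw [claim3] at h1
    have h2 : adeg add m = 0 := by omega
    unfold adeg at h2
    rw [Finset.sum_eq_zero_iff] at h2
    have := h2 j (Finset.mem_univ _)
    rwa [if_pos hj] at this
  have claim4 : ∀ m, coeff m f ≠ 0 → m = m₀ := by
    intro m hm
    ext j
    by_cases haj : add j = true
    · rw [hadd0 m hm j haj, hadd0 m₀ hm₀' j haj]
    · exact claim2 m hm (by rw [claim3]; exact Nat.zero_le _) j (by simpa using haj)
  have hfmono : f = monomial m₀ (coeff m₀ f) := by
    ext m
    rw [coeff_monomial]
    split_ifs with h
    · rw [h]
    · by_contra hne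
      exact h (claim4 m hne).symm
  rw [hfmono] at hfP
  exact monomial_notMem add P hP m₀ (hadd0 m₀ hm₀') _ hm₀' hfP

end Pool.Agent.H340R2.Stab
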