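import Pool.Agent.H364R2.Defs

/-!
# Common eigenvector arguments for the zero estimate (TEAM-TR, module M0b)
-/

open MvPolynomial

namespace Pool.Agent.H340R2.Stab

open Pool.Agent.H364R2

/-! ## Common eigenvectors -/

theorem common_eigen {ι M : Type*} [AddCommGroup M] [Module ℂ M] (T : ι → M →ₗ[ℂ] M)
    (hcomm : ∀ i j v, T i (T j v) = T j (T i v)) (s : Finset ι) :
    ∀ (V : Submodule ℂ M), V ≠ ⊥ → FiniteDimensional ℂ V →
      (∀ i ∈ s, ∀ v ∈ V, T i v ∈ V) →
      ∃ v ∈ V, v ≠ 0 ∧ ∀ i ∈ s, ∃ ν : ℂ, T i v = ν • v := by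
  classical
  induction s using Finset.induction_on with
  | empty =>
    intro V hV _ _
    obtain ⟨v, hv, hv0⟩ := Submodule.exists_mem_ne_zero_of_ne_bot hV
    exact ⟨v, hv, hv0, by simp⟩
  | insert i s his IH =>
    intro V hV hfd hst
    have := hfd
    have : Nontrivial V := Submodule.nontrivial_iff_ne_bot.mpr hV
    have hmaps : ∀ v ∈ V, T i v ∈ V := hst i (Finset.mem_insert_self _ _)
    obtain ⟨ν, hν⟩ := Module.End.exists_eigenvalue ((T i).restrict hmaps)
    obtain ⟨w, hw⟩ := hν.exists_hasEigenvector
    have hw1 : T i (w : M) = ν • (w : M) := by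
      have := hw.apply_eq_smul
      have h2 := congrArg (Subtype.val) this
      simpa using h2
    have hw0 : (w : M) ≠ 0 := by
      intro h
      exact hw.2 (Subtype.ext h)
    let V' : Submodule ℂ M := V ⊓ LinearMap.ker (T i - ν • LinearMap.id)
    have hV'mem : ∀ v, v ∈ V' ↔ v ∈ V ∧ T i v = ν • v := by
      intro v
      simp only [V', Submodule.mem_inf, LinearMap.mem_ker, LinearMap.sub_apply,
        LinearMap.smul_apply, LinearMap.id_apply, sub_eq_zero]
    have hV'0 : V' ≠ ⊥ := by
      intro h
      have : (w : M) ∈ V' := (hV'mem _).mpr ⟨w.2, hw1⟩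
      rw [h] at this
      exact hw0 (by simpa using this)
    have hfd' : FiniteDimensional ℂ V' :=
      Submodule.finiteDimensional_of_le (inf_le_left : V' ≤ V)
    have hst' : ∀ j ∈ s, ∀ v ∈ V', T j v ∈ V' := by
      intro j hj v hv
      rw [hV'mem] at hv ⊢
      refine ⟨hst j (Finset.mem_insert_of_mem hj) v hv.1, ?_⟩
      rw [hcomm i j v, hv.2, map_smul]
    obtain ⟨v, hv, hv0, hvs⟩ := IH V' hV'0 hfd' hst'
    rw [hV'mem] at hv
    refine ⟨v, hv.1, hv0, ?_⟩
    intro j hj
    rcases Finset.mem_insert.mp hj with rfl | hj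
    · exact ⟨ν, hv.2⟩
    · exact hvs j hj

variable {σ : Type}

/-! ## Membership lemmas in terms of coefficients -/

theorem mem_supported_iff_coeff (E : Set σ) (f : MvPolynomial σ ℂ) :
    f ∈ supported ℂ E ↔ ∀ m, coeff m f ≠ 0 → ∀ j, j ∉ E → m j = 0 := by
  rw [mem_supported]
  constructor
  · intro h m hm j hj
    by_contra hne
    apply hj
    apply h
    rw [Finset.mem_coe, mem_vars_iff_mem_support]
    exact ⟨m, mem_support_iff.mpr hm, Finsupp.mem_support_iff.mpr hne⟩
  · intro h j hj
    rw [Finset.mem_coe, mem_vars_iff_mem_support] at hj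
    obtain ⟨m, hm, hmj⟩ := hj
    by_contra hjE
    exact (Finsupp.mem_support_iff.mp hmj) (h m (mem_support_iff.mp hm) j hjE)

theorem totalDegree_le_iff_coeff (d : ℕ) (f : MvPolynomial σ ℂ) :
    f.totalDegree ≤ d ↔ ∀ m, coeff m f ≠ 0 → m.degree ≤ d := by
  rw [totalDegree, Finset.sup_le_iff]
  constructor
  · intro h m hm
    exact h m (mem_support_iff.mpr hm)
  · intro h m hm
    exact h m (mem_support_iff.mp hm)

section fin
variable [Fintype σ] [DecidableEq σ]

theorem degree_eq_sum (m : σ →₀ ℕ) : m.degree = ∑ j, m j := by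
  rw [Finsupp.degree]
  exact Finset.sum_subset (Finset.subset_univ _) (by
    intro x _ hx
    simpa using hx)

/-! ## Coefficient formula for derivations -/

theorem coeff_der_monomial (add : σ → Bool) (w : σ → ℂ) (s : σ →₀ ℕ) (r : ℂ) (m : σ →₀ ℕ) :
    coeff m (der add w (monomial s r)) =
      ∑ j, (if add j then w j * ((m j : ℂ) + 1) * coeff (m + Finsupp.single j 1) (monomial s r)
        else w j * (m j : ℂ) * coeff m (monomial s r)) := by
  rw [der, mkDerivation_monomial, Finsupp.sum_fintype _ _ (by simp), Finset.smul_sum, coeff_sum]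
  apply Finset.sum_congr rfl
  intro j _
  by_cases hs : s j = 0
  · have h1 : (monomial (s - Finsupp.single j 1)) (((s j : ℕ) : ℂ)) = 0 := by simp [hs]
    rw [h1]
    simp only [smul_eq_mul, zero_mul, smul_zero, coeff_zero]
    split_ifs with ha
    · have : coeff (m + Finsupp.single j 1) (monomial s r) = 0 := by
        rw [coeff_monomial, if_neg]
        intro h
        rw [h] at hs
        simp at hs
      rw [this, mul_zero]
    · by_cases hms : s = m
      · subst hms
        simp [hs]
      · rw [coeff_monomial, if_neg hms, mul_zero]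
  · split_ifs with ha
    · rw [smul_eq_mul, mul_comm (monomial _ _), coeff_smul, coeff_C_mul, coeff_monomial,
        coeff_monomial]
      by_cases h : s = m + Finsupp.single j 1
      · have h' : s - Finsupp.single j 1 = m := by rw [h]; simp
        rw [if_pos h, if_pos h']
        have : s j = m j + 1 := by rw [h]; simp
        rw [this]
        push_cast
        simp only [smul_eq_mul]
        ring
      · have h' : ¬ (s - Finsupp.single j 1 = m) := by
          intro h2
          apply h
          rw [← h2]
          rw [tsub_add_cancel_of_le]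
          rw [Finsupp.single_le_iff]
          omega
        rw [if_neg h, if_neg h']
        simp
    · have e : (monomial (s - Finsupp.single j 1) ((s j : ℕ) : ℂ)) • (C (w j) * X j : MvPolynomial σ ℂ)
          = monomial s (((s j : ℕ) : ℂ) * w j) := by
        rw [smul_eq_mul, X, C_mul_monomial, monomial_mul]
        congr 1
        · rw [tsub_add_cancel_of_le]
          rw [Finsupp.single_le_iff]
          omega
        · ring
      rw [e, coeff_smul, coeff_monomial, coeff_monomial]
      by_cases h : s = m
      · rw [if_pos h, if_pos h, h]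
        simp only [smul_eq_mul]
        ring
      · rw [if_neg h, if_neg h]
        simp

theorem coeff_der (add : σ → Bool) (w : σ → ℂ) (f : MvPolynomial σ ℂ) (m : σ →₀ ℕ) :
    coeff m (der add w f) =
      ∑ j, (if add j then w j * ((m j : ℂ) + 1) * coeff (m + Finsupp.single j 1) f
        else w j * (m j : ℂ) * coeff m f) := by
  induction f using MvPolynomial.induction_on' with
  | monomial s r => exact coeff_der_monomial add w s r m
  | add p q hp hq =>
    rw [map_add, coeff_add, hp, hq, ← Finset.sum_add_distrib]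
    apply Finset.sum_congr rfl
    intro j _
    split_ifs <;> rw [coeff_add] <;> ring

theorem der_comm (add : σ → Bool) (w w' : σ → ℂ) (f : MvPolynomial σ ℂ) :
    der add w (der add w' f) = der add w' (der add w f) := by
  have h : ⁅der add w, der add w'⁆ = 0 := by
    apply derivation_ext
    intro j
    rw [Derivation.commutator_apply]
    have hX : ∀ w : σ → ℂ, der add w (X j) = if add j then C (w j) else C (w j) * X j := by
      intro w
      rw [der, mkDerivation_X]
    rw [hX, hX]
    by_cases ha : add j
    · rw [if_pos ha, if_pos ha, derivation_C, derivation_C]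
      simp
    · rw [if_neg ha, if_neg ha, Derivation.leibniz, Derivation.leibniz, derivation_C,
        derivation_C, hX, hX, if_neg ha, if_neg ha]
      simp only [smul_eq_mul, Derivation.coe_zero, Pi.zero_apply, mul_zero, add_zero]
      ring
  have h2 := congrArg (fun D : Derivation ℂ (MvPolynomial σ ℂ) (MvPolynomial σ ℂ) => D f) h
  simp only [Derivation.commutator_apply, Derivation.coe_zero, Pi.zero_apply] at h2
  exact sub_eq_zero.mp h2


/-! ## Monomials in the multiplicative variables are not in a `G`-prime -/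

theorem monomial_notMem (add : σ → Bool) (P : Ideal (MvPolynomial σ ℂ)) (hP : GPrime add P)
    (m : σ →₀ ℕ) (hm : ∀ j, add j = true → m j = 0) (c : ℂ) (hc : c ≠ 0) :
    monomial m c ∉ P := by
  intro h
  have hprime := hP.1
  rw [monomial_eq, Finsupp.prod_fintype _ _ (by simp)] at h
  rcases hprime.mem_or_mem h with h | h
  · apply hprime.ne_top
    apply Ideal.eq_top_of_isUnit_mem _ h
    exact (isUnit_iff_ne_zero.mpr hc).map C
  · rw [hprime.prod_mem_iff] at h
    obtain ⟨j, _, hj⟩ := h
    by_cases hmj : m j = 0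
    · rw [hmj, pow_zero] at hj
      exact hprime.ne_top ((Ideal.eq_top_iff_one _).mpr hj)
    · have := hprime.mem_of_pow_mem _ hj
      have hadd : add j = false := by
        by_contra h'
        exact hmj (hm j (by simpa using h'))
      exact hP.2 j hadd this

/-- additive degree -/
def adeg (add : σ → Bool) (m : σ →₀ ℕ) : ℕ := ∑ j, if add j then m j else 0

theorem adeg_add_single (add : σ → Bool) (m : σ →₀ ℕ) (j : σ) (hj : add j = true) :
    adeg add (m + Finsupp.single j 1) = adeg add m + 1 := by
  unfold adeg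
  have : ∀ i, (if add i then (m + Finsupp.single j 1 : σ →₀ ℕ) i else 0) =
      (if add i then m i else 0) + (if i = j then 1 else 0) := by
    intro i
    by_cases hij : i = j
    · subst hij
      simp [hj]
    · have : (Finsupp.single j 1 : σ →₀ ℕ) i = 0 := Finsupp.single_eq_of_ne hij
      simp [hij, this]
  simp_rw [this]
  rw [Finset.sum_add_distrib]
  simp

/-- E (derivations): a `G`-prime `P` which is not independent on `E` cannot be stable (on the
variables `E`) under invariant derivations which separate `E`. -/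
theorem exists_der_notMem (add : σ → Bool) {l : ℕ} (W : Fin l → σ → ℂ)
    (P : Ideal (MvPolynomial σ ℂ)) (hP : GPrime add P) (E : Set σ) (K' : Finset (Fin l))
    (ha : ∀ j ∈ E, add j = true → ∃ k ∈ K', W k j ≠ 0 ∧
      ∀ j' ∈ E, add j' = true → j' ≠ j → W k j' = 0)
    (hb : ∀ b : σ → ℤ, (∀ j, (j ∉ E ∨ add j = true) → b j = 0) →
      (∀ k ∈ K', ∑ j, W k j * (b j : ℂ) = 0) → ∀ j, b j = 0)
    (hE : ¬ Indep P E) :
    ∃ f ∈ supported ℂ E, f ∈ P ∧ ∃ k ∈ K', der add (W k) f ∉ P := by
  by_contra hcon
  push Not at hcon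
  unfold Indep at hE
  push Not at hE
  obtain ⟨f0, hf0E, hf0P, hf00⟩ := hE
  let V : Submodule ℂ (MvPolynomial σ ℂ) :=
    (Subalgebra.toSubmodule (supported ℂ E)) ⊓ (P.restrictScalars ℂ) ⊓
      restrictTotalDegree σ ℂ f0.totalDegree
  have hVmem : ∀ f, f ∈ V ↔ (f ∈ supported ℂ E ∧ f ∈ P) ∧ f.totalDegree ≤ f0.totalDegree := by
    intro f
    simp only [V, Submodule.mem_inf, Subalgebra.mem_toSubmodule, Submodule.restrictScalars_mem,
      mem_restrictTotalDegree]
  have hV0 : V ≠ ⊥ := by
    intro h
    have : f0 ∈ V := (hVmem _).mpr ⟨⟨hf0E, hf0P⟩, le_refl _⟩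
    rw [h] at this
    exact hf00 (by simpa using this)
  have hfd : FiniteDimensional ℂ V :=
    Submodule.finiteDimensional_of_le (inf_le_right : V ≤ restrictTotalDegree σ ℂ f0.totalDegree)
  have hst : ∀ k ∈ K', ∀ f ∈ V, ((der add (W k) : Derivation ℂ (MvPolynomial σ ℂ)
      (MvPolynomial σ ℂ)) : MvPolynomial σ ℂ →ₗ[ℂ] MvPolynomial σ ℂ) f ∈ V := by
    intro k hk f hf
    rw [hVmem] at hf ⊢
    rw [Derivation.coeFn_coe]
    refine ⟨⟨?_, hcon f hf.1.1 hf.1.2 k hk⟩, ?_⟩
    · rw [mem_supported_iff_coeff] at *
      intro m hm i hi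
      rw [coeff_der] at hm
      obtain ⟨j, _, hj⟩ := Finset.exists_ne_zero_of_sum_ne_zero hm
      split_ifs at hj with haj
      · have h1 : coeff (m + Finsupp.single j 1) f ≠ 0 := by
          intro h; rw [h, mul_zero] at hj; exact hj rfl
        have := hf.1.1 _ h1 i hi
        rw [Finsupp.add_apply] at this
        omega
      · have h1 : coeff m f ≠ 0 := by
          intro h; rw [h, mul_zero] at hj; exact hj rfl
        exact hf.1.1 _ h1 i hi
    · rw [totalDegree_le_iff_coeff]
      have hfd := (totalDegree_le_iff_coeff _ _).mp hf.2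
      intro m hm
      rw [coeff_der] at hm
      obtain ⟨j, _, hj⟩ := Finset.exists_ne_zero_of_sum_ne_zero hm
      split_ifs at hj with haj
      · have h1 : coeff (m + Finsupp.single j 1) f ≠ 0 := by
          intro h; rw [h, mul_zero] at hj; exact hj rfl
        have := hfd _ h1
        rw [map_add] at this
        omega
      · have h1 : coeff m f ≠ 0 := by
          intro h; rw [h, mul_zero] at hj; exact hj rfl
        exact hfd _ h1
  obtain ⟨f, hfV, hf0, hfeig⟩ := common_eigen
    (fun k : Fin l => ((der add (W k) : Derivation ℂ (MvPolynomial σ ℂ)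
      (MvPolynomial σ ℂ)) : MvPolynomial σ ℂ →ₗ[ℂ] MvPolynomial σ ℂ))
    (fun i j v => der_comm add _ _ v) K' V hV0 hfd hst
  rw [hVmem] at hfV
  obtain ⟨⟨hfE, hfP⟩, -⟩ := hfV
  rw [mem_supported_iff_coeff] at hfE
  have hsupp : f.support.Nonempty := support_nonempty.mpr hf0
  obtain ⟨m₀, hm₀, hmax⟩ := Finset.exists_max_image f.support (adeg add) hsupp
  have hm₀' : coeff m₀ f ≠ 0 := mem_support_iff.mp hm₀
  -- claim 1
  have claim1 : ∀ k ∈ K', ∀ ν : ℂ, der add (W k) f = ν • f → ∀ m, coeff m f ≠ 0 →
      adeg add m₀ ≤ adeg add m → ∑ j, (if add j then 0 else W k j * (m j : ℂ)) = ν := by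
    intro k hk ν hν m hm hmm
    have h1 := congrArg (coeff m) hν
    rw [coeff_der, coeff_smul, smul_eq_mul] at h1
    have h2 : ∀ j, (if add j then W k j * ((m j : ℂ) + 1) * coeff (m + Finsupp.single j 1) f
        else W k j * (m j : ℂ) * coeff m f) =
        (if add j then 0 else W k j * (m j : ℂ)) * coeff m f := by
      intro j
      split_ifs with haj
      · have : coeff (m + Finsupp.single j 1) f = 0 := by
          by_contra hne
          have h3 := hmax _ (mem_support_iff.mpr hne)
          rw [adeg_add_single add m j haj] at h3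
          omega
        rw [this]; ring
      · rfl
    simp_rw [h2] at h1
    rw [← Finset.sum_mul] at h1
    exact mul_right_cancel₀ hm h1
  -- claim 2
  have claim2 : adeg add m₀ = 0 := by
    by_contra hne
    unfold adeg at hne
    obtain ⟨j, _, hj⟩ := Finset.exists_ne_zero_of_sum_ne_zero hne
    split_ifs at hj with haj
    · have hjE : j ∈ E := by
        by_contra h
        exact hj (hfE m₀ hm₀' j h)
      obtain ⟨k, hk, hWk, hWk'⟩ := ha j hjE haj
      obtain ⟨ν, hν⟩ := hfeig k hk
      rw [Derivation.coeFn_coe] at hν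
      have hc1 := claim1 k hk ν hν m₀ hm₀' (le_refl _)
      let m1 : σ →₀ ℕ := m₀ - Finsupp.single j 1
      have hm1 : m1 + Finsupp.single j 1 = m₀ := by
        apply tsub_add_cancel_of_le
        rw [Finsupp.single_le_iff]
        omega
      have h1 := congrArg (coeff m1) hν
      rw [coeff_der, coeff_smul, smul_eq_mul] at h1
      have h2 : ∀ i, (if add i then W k i * ((m1 i : ℂ) + 1) * coeff (m1 + Finsupp.single i 1) f
          else W k i * (m1 i : ℂ) * coeff m1 f) =
          (if add i then 0 else W k i * (m₀ i : ℂ)) * coeff m1 f +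
            (if i = j then W k j * ((m1 j : ℂ) + 1) * coeff m₀ f else 0) := by
        intro i
        by_cases hij : i = j
        · subst hij
          simp only [haj, if_true, hm1, zero_mul, zero_add]
        · rw [if_neg hij, add_zero]
          split_ifs with hai
          · by_cases hiE : i ∈ E
            · rw [hWk' i hiE hai hij]; ring
            · have : coeff (m1 + Finsupp.single i 1) f = 0 := by
                by_contra hne
                have h3 := hfE _ hne i hiE
                simp at h3
              rw [this]; ring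
          · have : m₀ i = m1 i := by
              rw [← hm1, Finsupp.add_apply, Finsupp.single_eq_of_ne hij, add_zero]
            rw [this]
      simp_rw [h2] at h1
      rw [Finset.sum_add_distrib, ← Finset.sum_mul, hc1, Finset.sum_ite_eq' Finset.univ j,
        if_pos (Finset.mem_univ _)] at h1
      have h3 : W k j * ((m1 j : ℂ) + 1) * coeff m₀ f = 0 := by
        linear_combination h1
      have h4 : ((m1 j : ℂ) + 1) ≠ 0 := by
        exact_mod_cast Nat.succ_ne_zero (m1 j)
      exact mul_ne_zero (mul_ne_zero hWk h4) hm₀' h3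
    · exact hj rfl
  have hadd0 : ∀ m, coeff m f ≠ 0 → ∀ j, add j = true → m j = 0 := by
    intro m hm j hj
    have h1 := hmax m (mem_support_iff.mpr hm)
    rw [claim2] at h1
    have h2 : adeg add m = 0 := by omega
    unfold adeg at h2
    rw [Finset.sum_eq_zero_iff] at h2
    have := h2 j (Finset.mem_univ _)
    rwa [if_pos hj] at this
  -- claim 3
  have claim3 : ∀ m, coeff m f ≠ 0 → m = m₀ := by
    intro m hm
    have hb' := hb (fun j => (m j : ℤ) - (m₀ j : ℤ)) (by
      intro j hj
      rcases hj with hj | hj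
      · show (m j : ℤ) - (m₀ j : ℤ) = 0
        rw [hfE m hm j hj, hfE m₀ hm₀' j hj]; simp
      · show (m j : ℤ) - (m₀ j : ℤ) = 0
        rw [hadd0 m hm j hj, hadd0 m₀ hm₀' j hj]; simp) (by
      intro k hk
      obtain ⟨ν, hν⟩ := hfeig k hk
      rw [Derivation.coeFn_coe] at hν
      have h1 := claim1 k hk ν hν m hm (by rw [claim2]; omega)
      have h2 := claim1 k hk ν hν m₀ hm₀' (le_refl _)
      have h3 := h1.trans h2.symm
      rw [← sub_eq_zero, ← Finset.sum_sub_distrib] at h3
      rw [← h3]
      apply Finset.sum_congr rfl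
      intro j _
      split_ifs with haj
      · rw [hadd0 m hm j haj, hadd0 m₀ hm₀' j haj]; simp
      · push_cast; ring)
    ext j
    have := hb' j
    omega
  have hfmono : f = monomial m₀ (coeff m₀ f) := by
    ext m
    rw [coeff_monomial]
    split_ifs with h
    · rw [h]
    · by_contra hne
      exact h (claim3 m hne).symm
  rw [hfmono] at hfP
  exact monomial_notMem add P hP m₀ (hadd0 m₀ hm₀') _ hm₀' hfP


/-! ## Translations -/

theorem coeff_prod_aeval (q : σ → Polynomial ℂ) (m : σ →₀ ℕ) :
    coeff m (∏ j, Polynomial.aeval (X j : MvPolynomial σ ℂ) (q j)) =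
      ∏ j, (q j).coeff (m j) := by
  set N : ℕ := (∑ j, (q j).natDegree) + (∑ j, m j) + 1 with hN
  have h1 : ∀ j, (q j).natDegree < N := by
    intro j
    have := Finset.single_le_sum (f := fun j => (q j).natDegree) (s := Finset.univ)
      (fun _ _ => Nat.zero_le _) (Finset.mem_univ j)
    omega
  have h2 : ∀ j, m j < N := by
    intro j
    have := Finset.single_le_sum (f := fun j => m j) (s := Finset.univ)
      (fun _ _ => Nat.zero_le _) (Finset.mem_univ j)
    omega
  have h3 : ∀ j, Polynomial.aeval (X j : MvPolynomial σ ℂ) (q j) =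
      ∑ i ∈ Finset.range N, (q j).coeff i • (X j : MvPolynomial σ ℂ) ^ i :=
    fun j => Polynomial.aeval_eq_sum_range' (h1 j) _
  simp_rw [h3]
  rw [Finset.prod_univ_sum, coeff_sum]
  have h4 : ∀ φ : σ → ℕ, coeff m (∏ j, (q j).coeff (φ j) • (X j : MvPolynomial σ ℂ) ^ (φ j)) =
      if φ = m then ∏ j, (q j).coeff (φ j) else 0 := by
    intro φ
    have e : ∏ j, (q j).coeff (φ j) • (X j : MvPolynomial σ ℂ) ^ (φ j) =
        monomial (Finsupp.equivFunOnFinite.symm φ) (∏ j, (q j).coeff (φ j)) := by
      rw [monomial_eq, Finsupp.prod_fintype _ _ (by simp), map_prod, ← Finset.prod_mul_distrib]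
      apply Finset.prod_congr rfl
      intro j _
      rw [smul_eq_C_mul]
      rfl
    rw [e, coeff_monomial]
    by_cases h : φ = m
    · rw [if_pos h, if_pos]
      ext j
      simp [h]
    · rw [if_neg h, if_neg]
      intro h'
      apply h
      rw [← h']
      rfl
  simp_rw [h4]
  rw [Finset.sum_ite_eq' (Fintype.piFinset fun _ => Finset.range N) (m : σ → ℕ), if_pos]
  rw [Fintype.mem_piFinset]
  intro j
  exact Finset.mem_range.mpr (h2 j)

/-- the factor at the variable `j` of the coefficient of `X^m` in the translate of `X^s`. -/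
noncomputable def trc (add : σ → Bool) (g : σ → ℂ) (s m : σ →₀ ℕ) (j : σ) : ℂ :=
  if add j then g j ^ (s j - m j) * ((s j).choose (m j) : ℂ)
  else if s j = m j then g j ^ (m j) else 0

theorem coeff_tr_monomial (add : σ → Bool) (g : σ → ℂ) (s : σ →₀ ℕ) (r : ℂ) (m : σ →₀ ℕ) :
    coeff m (tr add g (monomial s r)) = r * ∏ j, trc add g s m j := by
  rw [tr, aeval_monomial, Finsupp.prod_fintype _ _ (by simp), algebraMap_eq, coeff_C_mul]
  congr 1
  have h : ∀ j, (if add j then X j + C (g j) else C (g j) * X j : MvPolynomial σ ℂ) ^ (s j) =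
      Polynomial.aeval (X j : MvPolynomial σ ℂ) (if add j then
        (Polynomial.X + Polynomial.C (g j)) ^ (s j)
        else (Polynomial.C (g j) * Polynomial.X) ^ (s j)) := by
    intro j
    split_ifs <;> simp [algebraMap_eq]
  simp_rw [h]
  rw [coeff_prod_aeval]
  apply Finset.prod_congr rfl
  intro j _
  rw [trc]
  split_ifs with ha hs
  · rw [Polynomial.coeff_X_add_C_pow]
  · rw [mul_pow, ← Polynomial.C_pow, Polynomial.coeff_C_mul, Polynomial.coeff_X_pow, if_pos hs.symm,
      mul_one, hs]
  · rw [mul_pow, ← Polynomial.C_pow, Polynomial.coeff_C_mul, Polynomial.coeff_X_pow,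
      if_neg (fun h => hs h.symm), mul_zero]

theorem coeff_tr (add : σ → Bool) (g : σ → ℂ) (f : MvPolynomial σ ℂ) (m : σ →₀ ℕ)
    (F : Finset (σ →₀ ℕ)) (hF : f.support ⊆ F) :
    coeff m (tr add g f) = ∑ s ∈ F, coeff s f * ∏ j, trc add g s m j := by
  conv_lhs => rw [f.as_sum]
  rw [map_sum, coeff_sum]
  simp_rw [coeff_tr_monomial]
  apply Finset.sum_subset hF
  intro s _ hs
  rw [notMem_support_iff.mp hs, zero_mul]

theorem tr_comm (add : σ → Bool) (g h : σ → ℂ) (f : MvPolynomial σ ℂ) :
    tr add g (tr add h f) = tr add h (tr add g f) := by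
  have e : (tr add g).comp (tr add h) = (tr add h).comp (tr add g) := by
    apply algHom_ext
    intro j
    simp only [AlgHom.comp_apply]
    have hX : ∀ w : σ → ℂ, tr add w (X j) = if add j then X j + C (w j) else C (w j) * X j := by
      intro w
      rw [tr, aeval_X]
    rw [hX, hX]
    by_cases ha : add j
    · rw [if_pos ha, if_pos ha, map_add, map_add, hX, hX, if_pos ha, if_pos ha,
        ← algebraMap_eq, AlgHom.commutes, AlgHom.commutes]
      ring
    · rw [if_neg ha, if_neg ha, map_mul, map_mul, hX, hX, if_neg ha, if_neg ha,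
        ← algebraMap_eq, AlgHom.commutes, AlgHom.commutes]
      ring
  exact congrArg (fun φ : MvPolynomial σ ℂ →ₐ[ℂ] MvPolynomial σ ℂ => φ f) e

theorem trc_ne_zero (add : σ → Bool) (g : σ → ℂ) (s m : σ →₀ ℕ) (j : σ)
    (h : trc add g s m j ≠ 0) : m j ≤ s j ∧ (add j = false → s j = m j) := by
  unfold trc at h
  split_ifs at h with ha hs
  · refine ⟨?_, fun h' => by simp [ha] at h'⟩
    by_contra hlt
    apply h
    rw [Nat.choose_eq_zero_of_lt (by omega)]
    simp
  · exact ⟨hs.ge, fun _ => hs⟩
  · exact absurd rfl h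

theorem prod_trc_self (add : σ → Bool) (g : σ → ℂ) (m : σ →₀ ℕ) :
    ∏ j, trc add g m m j = ∏ j, (if add j then 1 else g j ^ (m j)) := by
  apply Finset.prod_congr rfl
  intro j _
  unfold trc
  by_cases h : add j = true
  · rw [if_pos h, if_pos h]; simp
  · rw [if_neg h, if_neg h, if_pos rfl]

theorem prod_trc_ne_zero (add : σ → Bool) (g : σ → ℂ) (s m : σ →₀ ℕ)
    (h : ∏ j, trc add g s m j ≠ 0) : ∀ j, m j ≤ s j ∧ (add j = false → s j = m j) := by
  intro j
  exact trc_ne_zero add g s m j (Finset.prod_ne_zero_iff.mp h j (Finset.mem_univ _))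

theorem tr_mem_supported (add : σ → Bool) (g : σ → ℂ) (E : Set σ) (f : MvPolynomial σ ℂ)
    (hf : f ∈ supported ℂ E) : tr add g f ∈ supported ℂ E := by
  rw [mem_supported_iff_coeff] at *
  intro m hm i hi
  rw [coeff_tr add g f m _ (Finset.Subset.refl _)] at hm
  obtain ⟨s, hs, hs2⟩ := Finset.exists_ne_zero_of_sum_ne_zero hm
  have h1 := hf s (mem_support_iff.mp hs) i hi
  have h2 := (prod_trc_ne_zero add g s m (right_ne_zero_of_mul hs2) i).1
  omega

theorem totalDegree_tr_le (add : σ → Bool) (g : σ → ℂ) (f : MvPolynomial σ ℂ) (d : ℕ)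
    (hf : f.totalDegree ≤ d) : (tr add g f).totalDegree ≤ d := by
  rw [totalDegree_le_iff_coeff] at *
  intro m hm
  rw [coeff_tr add g f m _ (Finset.Subset.refl _)] at hm
  obtain ⟨s, hs, hs2⟩ := Finset.exists_ne_zero_of_sum_ne_zero hm
  have h1 := hf s (mem_support_iff.mp hs)
  refine le_trans ?_ h1
  rw [degree_eq_sum, degree_eq_sum]
  exact Finset.sum_le_sum (fun j _ => (prod_trc_ne_zero add g s m (right_ne_zero_of_mul hs2) j).1)

/-- F' (translations): -/
theorem indep_of_stab (add : σ → Bool) (P : Ideal (MvPolynomial σ ℂ)) (hP : GPrime add P)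
    (E : Set σ) (Δ : Finset (σ → ℂ)) (hΔG : ∀ δ ∈ Δ, IsG add δ)
    (hΔ : ∀ δ ∈ Δ, ∀ f ∈ P, tr add δ f ∈ P)
    (hadd : Indep P {j ∈ E | add j = true})
    (hchar : ∀ b : σ → ℤ, (∀ j, (j ∉ E ∨ add j = true) → b j = 0) →
      (∀ δ ∈ Δ, ∏ j, (if add j then 1 else δ j ^ (b j)) = 1) → ∀ j, b j = 0) :
    Indep P E := by
  by_contra hE
  unfold Indep at hE
  push Not at hE
  obtain ⟨f0, hf0E, hf0P, hf00⟩ := hE
  let V : Submodule ℂ (MvPolynomial σ ℂ) :=
    (Subalgebra.toSubmodule (supported ℂ E)) ⊓ (P.restrictScalars ℂ) ⊓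
      restrictTotalDegree σ ℂ f0.totalDegree
  have hVmem : ∀ f, f ∈ V ↔ (f ∈ supported ℂ E ∧ f ∈ P) ∧ f.totalDegree ≤ f0.totalDegree := by
    intro f
    simp only [V, Submodule.mem_inf, Subalgebra.mem_toSubmodule, Submodule.restrictScalars_mem,
      mem_restrictTotalDegree]
  have hV0 : V ≠ ⊥ := by
    intro h
    have : f0 ∈ V := (hVmem _).mpr ⟨⟨hf0E, hf0P⟩, le_refl _⟩
    rw [h] at this
    exact hf00 (by simpa using this)
  have hfd : FiniteDimensional ℂ V :=
    Submodule.finiteDimensional_of_le (inf_le_right : V ≤ restrictTotalDegree σ ℂ f0.totalDegree)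
  have hst : ∀ δ ∈ Δ, ∀ f ∈ V, (tr add δ).toLinearMap f ∈ V := by
    intro δ hδ f hf
    rw [hVmem] at hf ⊢
    exact ⟨⟨tr_mem_supported add δ E f hf.1.1, hΔ δ hδ f hf.1.2⟩,
      totalDegree_tr_le add δ f _ hf.2⟩
  obtain ⟨f, hfV, hf0, hfeig⟩ := common_eigen
    (fun δ : σ → ℂ => (tr add δ).toLinearMap)
    (fun i j v => tr_comm add _ _ v) Δ V hV0 hfd hst
  rw [hVmem] at hfV
  obtain ⟨⟨hfE, hfP⟩, -⟩ := hfV
  rw [mem_supported_iff_coeff] at hfE
  have hsupp : f.support.Nonempty := support_nonempty.mpr hf0
  -- every monomial of `f` has the same characters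
  have claim : ∀ δ ∈ Δ, ∀ ν : ℂ, tr add δ f = ν • f → ∀ m, coeff m f ≠ 0 →
      ∏ j, (if add j then 1 else δ j ^ (m j)) = ν := by
    intro δ hδ ν hν m hm
    let Fm : Finset (σ →₀ ℕ) := f.support.filter (fun s => ∀ j, add j = false → s j = m j)
    have hFm : Fm.Nonempty := ⟨m, by
      rw [Finset.mem_filter]
      exact ⟨mem_support_iff.mpr hm, fun _ _ => rfl⟩⟩
    obtain ⟨m', hm', hmax⟩ := Finset.exists_max_image Fm (adeg add) hFm
    rw [Finset.mem_filter] at hm'
    have hm'0 : coeff m' f ≠ 0 := mem_support_iff.mp hm'.1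
    have h1 := congrArg (coeff m') hν
    rw [coeff_tr add δ f m' _ (Finset.Subset.refl _), coeff_smul, smul_eq_mul] at h1
    rw [Finset.sum_eq_single m'] at h1
    · rw [mul_comm, prod_trc_self] at h1
      have h2 := mul_right_cancel₀ hm'0 h1
      rw [← h2]
      apply Finset.prod_congr rfl
      intro j _
      split_ifs with haj
      · rfl
      · rw [hm'.2 j (by simpa using haj)]
    · intro s hs hsm
      by_contra hne
      have h2 := prod_trc_ne_zero add δ s m' (right_ne_zero_of_mul hne)
      have hsF : s ∈ Fm := by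
        rw [Finset.mem_filter]
        refine ⟨hs, ?_⟩
        intro j hj
        rw [(h2 j).2 hj, hm'.2 j hj]
      have h3 := hmax s hsF
      apply hsm
      ext j
      by_cases haj : add j = true
      · by_contra hjne
        have hlt : m' j < s j := lt_of_le_of_ne (h2 j).1 (fun h => hjne h.symm)
        have : adeg add m' < adeg add s := by
          unfold adeg
          apply Finset.sum_lt_sum
          · intro i _
            split_ifs
            · exact (h2 i).1
            · exact le_refl _
          · exact ⟨j, Finset.mem_univ _, by rw [if_pos haj, if_pos haj]; exact hlt⟩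
        omega
      · exact (h2 j).2 (by simpa using haj)
    · intro h
      exact absurd hm'.1 h
  obtain ⟨m₀, hm₀⟩ := hsupp
  have hm₀' : coeff m₀ f ≠ 0 := mem_support_iff.mp hm₀
  have claim2 : ∀ m, coeff m f ≠ 0 → ∀ j, add j = false → m j = m₀ j := by
    intro m hm
    have hb := hchar (fun j => if add j then 0 else (m j : ℤ) - (m₀ j : ℤ)) (by
      intro j hj
      rcases hj with hj | hj
      · show (if add j then 0 else (m j : ℤ) - (m₀ j : ℤ)) = 0
        rw [hfE m hm j hj, hfE m₀ hm₀' j hj]; simp
      · show (if add j then 0 else (m j : ℤ) - (m₀ j : ℤ)) = 0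
        rw [if_pos hj]) (by
      intro δ hδ
      obtain ⟨ν, hν⟩ := hfeig δ hδ
      have h1 := claim δ hδ ν hν m hm
      have h2 := claim δ hδ ν hν m₀ hm₀'
      have h3 : ∏ j, (if add j then (1 : ℂ) else δ j ^ (if add j then (0 : ℤ) else (m j : ℤ) - (m₀ j : ℤ)))
          = (∏ j, (if add j then 1 else δ j ^ (m j))) / (∏ j, (if add j then 1 else δ j ^ (m₀ j))) := by
        rw [← Finset.prod_div_distrib]
        apply Finset.prod_congr rfl
        intro j _
        split_ifs with haj
        · simp
        · rw [zpow_sub₀ (hΔG δ hδ j (by simpa using haj)), zpow_natCast, zpow_natCast]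
      rw [h3, h1, h2]
      apply div_self
      rw [← h2]
      apply Finset.prod_ne_zero_iff.mpr
      intro j _
      split_ifs with haj
      · exact one_ne_zero
      · exact pow_ne_zero _ (hΔG δ hδ j (by simpa using haj)))
    intro j hj
    have := hb j
    rw [if_neg (by simp [hj])] at this
    omega
  -- factor out the multiplicative monomial
  let μ : σ →₀ ℕ := Finsupp.equivFunOnFinite.symm (fun j => if add j then 0 else m₀ j)
  have hμ : ∀ j, μ j = if add j then 0 else m₀ j := fun j => rfl
  let g : MvPolynomial σ ℂ := ∑ m ∈ f.support, monomial (m - μ) (coeff m f)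
  have hle : ∀ m ∈ f.support, μ ≤ m := by
    intro m hm j
    rw [hμ]
    split_ifs with haj
    · exact Nat.zero_le _
    · rw [claim2 m (mem_support_iff.mp hm) j (by simpa using haj)]
  have hfg : f = g * monomial μ 1 := by
    rw [Finset.sum_mul]
    conv_lhs => rw [f.as_sum]
    apply Finset.sum_congr rfl
    intro m hm
    rw [monomial_mul, mul_one, tsub_add_cancel_of_le (hle m hm)]
  have hgP : g ∈ P := by
    rw [hfg] at hfP
    rcases hP.1.mem_or_mem hfP with h | h
    · exact h
    · exact absurd h (monomial_notMem add P hP μ (by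
        intro j hj
        rw [hμ, if_pos hj]) 1 one_ne_zero)
  have hgS : g ∈ supported ℂ {j ∈ E | add j = true} := by
    apply Subalgebra.sum_mem
    intro m hm
    rw [mem_supported_iff_coeff]
    intro n hn j hj
    rw [coeff_monomial] at hn
    split_ifs at hn with h
    · rw [← h]
      rw [Finsupp.tsub_apply]
      by_cases hjE : j ∈ E
      · have haj : add j = false := by
          by_contra h'
          exact hj ⟨hjE, by simpa using h'⟩
        rw [claim2 m hn j haj, hμ, if_neg (by simp [haj])]
        simp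
      · rw [hfE m hn j hjE]
        simp
    · exact absurd rfl hn
  have hg0 := hadd g hgS hgP
  rw [hfg, hg0, zero_mul] at hf0
  exact hf0 rfl

/-- F'' (translations, additive coordinates): -/
theorem indep_of_stab_add (add : σ → Bool) (P : Ideal (MvPolynomial σ ℂ)) (hP : GPrime add P)
    (E : Set σ) (hE : ∀ j ∈ E, add j = true) (Δ : Finset (σ → ℂ))
    (hΔ : ∀ δ ∈ Δ, ∀ f ∈ P, tr add δ f ∈ P)
    (hdiag : ∀ j ∈ E, ∃ δ ∈ Δ, δ j ≠ 0 ∧ ∀ j' ∈ E, j' ≠ j → δ j' = 0) :
    Indep P E := by
  by_contra hnot
  unfold Indep at hnot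
  push Not at hnot
  have hex : ∃ n, ∃ f ∈ supported ℂ E, f ∈ P ∧ f ≠ 0 ∧ f.totalDegree = n := by
    obtain ⟨f0, hf0E, hf0P, hf00⟩ := hnot
    exact ⟨_, f0, hf0E, hf0P, hf00, rfl⟩
  classical
  obtain ⟨f, hfE, hfP, hf0, hfdeg⟩ := Nat.find_spec hex
  have hmin : ∀ h ∈ supported ℂ E, h ∈ P → h ≠ 0 → f.totalDegree ≤ h.totalDegree := by
    intro h h1 h2 h3
    rw [hfdeg]
    exact Nat.find_min' hex ⟨h, h1, h2, h3, rfl⟩
  have hfE' := (mem_supported_iff_coeff E f).mp hfE
  have hfd' := (totalDegree_le_iff_coeff f.totalDegree f).mp (le_refl _)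
  -- `f` is invariant
  have hone : ∀ δ : σ → ℂ, ∀ m, coeff m f ≠ 0 → ∏ j, trc add δ m m j = 1 := by
    intro δ m hm
    rw [prod_trc_self]
    apply Finset.prod_eq_one
    intro j _
    split_ifs with haj
    · rfl
    · have : j ∉ E := fun h => haj (hE j h)
      rw [hfE' m hm j this, pow_zero]
  have hinv : ∀ δ ∈ Δ, tr add δ f = f := by
    intro δ hδ
    by_contra hne
    have hne' : tr add δ f - f ≠ 0 := sub_ne_zero.mpr hne
    have h1 := hmin (tr add δ f - f) (Subalgebra.sub_mem _ (tr_mem_supported add δ E f hfE) hfE)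
      (Ideal.sub_mem _ (hΔ δ hδ f hfP) hfP) hne'
    have h2 : ∀ m : σ →₀ ℕ, f.totalDegree ≤ m.degree → coeff m (tr add δ f - f) = 0 := by
      intro m hm
      rw [coeff_sub, coeff_tr add δ f m (insert m f.support) (Finset.subset_insert _ _)]
      rw [Finset.sum_eq_single m]
      · by_cases hmf : coeff m f = 0
        · rw [hmf]; ring
        · rw [hone δ m hmf]; ring
      · intro s hs hsm
        by_contra hne
        have hs' : coeff s f ≠ 0 := left_ne_zero_of_mul hne
        have h2 := prod_trc_ne_zero add δ s m (right_ne_zero_of_mul hne)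
        apply hsm
        have h3 := hfd' s hs'
        by_contra hsm'
        have hex2 : ∃ j, m j < s j := by
          by_contra hall
          push Not at hall
          apply hsm'
          ext j
          exact le_antisymm (hall j) (h2 j).1
        obtain ⟨j, hj⟩ := hex2
        have : m.degree < s.degree := by
          rw [degree_eq_sum, degree_eq_sum]
          exact Finset.sum_lt_sum (fun i _ => (h2 i).1) ⟨j, Finset.mem_univ _, hj⟩
        omega
      · intro h
        exact absurd (Finset.mem_insert_self _ _) h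
    have h3 : (tr add δ f - f).support.Nonempty := support_nonempty.mpr hne'
    -- a monomial of maximal degree
    obtain ⟨m, hm, hmax⟩ := Finset.exists_max_image (tr add δ f - f).support
      (fun s => s.degree) h3
    have h4 : (tr add δ f - f).totalDegree ≤ m.degree := by
      rw [totalDegree_le_iff_coeff]
      intro s hs
      exact hmax s (mem_support_iff.mpr hs)
    exact (mem_support_iff.mp hm) (h2 m (le_trans h1 h4))
  -- the degree is zero
  obtain ⟨m₀, hm₀, hmax⟩ := Finset.exists_max_image f.support
      (fun s => s.degree) (support_nonempty.mpr hf0)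
  have hm₀' : coeff m₀ f ≠ 0 := mem_support_iff.mp hm₀
  have hzero : m₀ = 0 := by
    by_contra hne
    have hex2 : ∃ j, m₀ j ≠ 0 := by
      by_contra hall
      push Not at hall
      apply hne
      ext j
      simpa using hall j
    obtain ⟨j, hj⟩ := hex2
    have hjE : j ∈ E := by
      by_contra h
      exact hj (hfE' m₀ hm₀' j h)
    obtain ⟨δ, hδ, hδj, hδ'⟩ := hdiag j hjE
    let m1 : σ →₀ ℕ := m₀ - Finsupp.single j 1
    have hm1 : m1 + Finsupp.single j 1 = m₀ := by
      apply tsub_add_cancel_of_le
      rw [Finsupp.single_le_iff]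
      omega
    have hm1j : m₀ j = m1 j + 1 := by
      rw [← hm1, Finsupp.add_apply, Finsupp.single_eq_same]
    have hm1i : ∀ i, i ≠ j → m₀ i = m1 i := by
      intro i hi
      rw [← hm1, Finsupp.add_apply, Finsupp.single_eq_of_ne hi, add_zero]
    have hne1 : m1 ≠ m₀ := by
      intro h
      rw [h] at hm1j
      omega
    have h1 := congrArg (coeff m1) (hinv δ hδ)
    rw [coeff_tr add δ f m1 (insert m1 (insert m₀ f.support)) (by
      intro s hs
      exact Finset.mem_insert_of_mem (Finset.mem_insert_of_mem hs))] at h1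
    have h2 : ∑ s ∈ insert m1 (insert m₀ f.support), coeff s f * ∏ i, trc add δ s m1 i =
        ∑ s ∈ ({m1, m₀} : Finset (σ →₀ ℕ)), coeff s f * ∏ i, trc add δ s m1 i := by
      symm
      apply Finset.sum_subset
      · intro s hs
        simp only [Finset.mem_insert, Finset.mem_singleton] at hs ⊢
        tauto
      · intro s _ hs
        by_contra hne
        have hs' : coeff s f ≠ 0 := left_ne_zero_of_mul hne
        have hp := right_ne_zero_of_mul hne
        have h2 := prod_trc_ne_zero add δ s m1 hp
        have h3 : ∀ i, i ≠ j → s i = m1 i := by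
          intro i hi
          by_cases hiE : i ∈ E
          · have h4 := Finset.prod_ne_zero_iff.mp hp i (Finset.mem_univ _)
            unfold trc at h4
            rw [if_pos (hE i hiE), hδ' i hiE hi] at h4
            by_contra hne4
            have : s i - m1 i ≠ 0 := by
              have := (h2 i).1
              omega
            rw [zero_pow this, zero_mul] at h4
            exact h4 rfl
          · rw [hfE' s hs' i hiE, ← hm1i i hi, hfE' m₀ hm₀' i hiE]
        have h5 : s.degree ≤ m₀.degree := hmax s (mem_support_iff.mpr hs')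
        have h6 : s j ≤ m1 j + 1 := by
          rw [degree_eq_sum, degree_eq_sum, ← Finset.add_sum_erase _ _ (Finset.mem_univ j),
            ← Finset.add_sum_erase _ _ (Finset.mem_univ j)] at h5
          have h7 : ∑ x ∈ Finset.univ.erase j, s x = ∑ x ∈ Finset.univ.erase j, m₀ x := by
            apply Finset.sum_congr rfl
            intro i hi
            have hij := Finset.ne_of_mem_erase hi
            rw [h3 i hij, hm1i i hij]
          omega
        have h7 := (h2 j).1
        apply hs
        rcases Nat.lt_or_ge (m1 j) (s j) with h8 | h8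
        · have : s = m₀ := by
            ext i
            by_cases hij : i = j
            · subst hij; omega
            · rw [h3 i hij, hm1i i hij]
          rw [this]; simp
        · have : s = m1 := by
            ext i
            by_cases hij : i = j
            · subst hij; omega
            · rw [h3 i hij]
          rw [this]; simp
    rw [h2, Finset.sum_pair hne1] at h1
    have h3 : coeff m1 f * ∏ i, trc add δ m1 m1 i = coeff m1 f := by
      by_cases hmf : coeff m1 f = 0
      · rw [hmf]; ring
      · rw [hone δ m1 hmf]; ring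
    rw [h3] at h1
    have h4 : coeff m₀ f * ∏ i, trc add δ m₀ m1 i = 0 := by
      linear_combination h1
    have h5 : ∏ i, trc add δ m₀ m1 i ≠ 0 := by
      rw [Finset.prod_ne_zero_iff]
      intro i _
      by_cases hij : i = j
      · subst hij
        unfold trc
        rw [if_pos (hE i hjE), hm1j]
        simp only [add_tsub_cancel_left, pow_one, Nat.choose_succ_self_right]
        apply mul_ne_zero hδj
        exact_mod_cast Nat.succ_ne_zero (m1 i)
      · unfold trc
        rw [hm1i i hij]
        by_cases haj : add i = true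
        · rw [if_pos haj]; simp
        · have : i ∉ E := fun h => haj (hE i h)
          rw [if_neg haj, if_pos rfl, ← hm1i i hij, hfE' m₀ hm₀' i this, pow_zero]
          exact one_ne_zero
    exact (mul_ne_zero hm₀' h5) h4
  have hfC : f = C (coeff 0 f) := by
    ext s
    rw [coeff_C]
    split_ifs with h
    · rw [h]
    · by_contra hne
      have h1 : s.degree ≤ m₀.degree := hmax s (mem_support_iff.mpr hne)
      rw [hzero, map_zero] at h1
      apply h
      symm
      rw [← Finsupp.degree_eq_zero_iff]
      omega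
  rw [hfC] at hfP
  apply hP.1.ne_top
  apply Ideal.eq_top_of_isUnit_mem _ hfP
  rw [hzero] at hm₀'
  exact (isUnit_iff_ne_zero.mpr hm₀').map C

end fin

/-! ## Exchange -/

theorem indep_iff (P : Ideal (MvPolynomial σ ℂ)) (B : Set σ) :
    Indep P B ↔ AlgebraicIndependent ℂ
      (fun i : B => (Ideal.Quotient.mk P (X (i : σ)) : MvPolynomial σ ℂ ⧸ P)) := by
  have key : ∀ p : MvPolynomial B ℂ, aeval
      (fun i : B => (Ideal.Quotient.mk P (X (i : σ)) : MvPolynomial σ ℂ ⧸ P)) p =
      Ideal.Quotient.mk P (rename (fun i : B => (i : σ)) p) := by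
    intro p
    have : (aeval (fun i : B => (Ideal.Quotient.mk P (X (i : σ)) : MvPolynomial σ ℂ ⧸ P))) =
        (Ideal.Quotient.mkₐ ℂ P).comp (rename (fun i : B => (i : σ))) := by
      apply algHom_ext
      intro i
      simp
    rw [this]
    rfl
  rw [algebraicIndependent_iff]
  constructor
  · intro h p hp
    rw [key, Ideal.Quotient.eq_zero_iff_mem] at hp
    have h1 := h _ (by
      rw [supported_eq_range_rename]
      exact ⟨p, rfl⟩) hp
    exact (rename_injective _ Subtype.val_injective) (by rw [h1, map_zero])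
  · intro h f hf hfP
    rw [supported_eq_range_rename] at hf
    obtain ⟨p, rfl⟩ := hf
    have h1 : aeval
      (fun i : B => (Ideal.Quotient.mk P (X (i : σ)) : MvPolynomial σ ℂ ⧸ P)) p = 0 := by
      rw [key, Ideal.Quotient.eq_zero_iff_mem]
      exact hfP
    rw [h p h1, map_zero]

/-- exchange property (matroid) in the only case needed -/
theorem indep_exchange (P : Ideal (MvPolynomial σ ℂ)) (hP : P.IsPrime) (i j k : σ)
    (hi : Indep P {i}) (hjk : Indep P {j, k}) (hne : j ≠ k) :
    (i ≠ j ∧ Indep P {i, j}) ∨ (i ≠ k ∧ Indep P {i, k}) := by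
  classical
  let x : σ → MvPolynomial σ ℂ ⧸ P := fun j => Ideal.Quotient.mk P (X j)
  have hxjk : x j ≠ x k := by
    intro h
    have h1 : (X j - X k : MvPolynomial σ ℂ) ∈ P := by
      rw [← Ideal.Quotient.eq_zero_iff_mem, map_sub, sub_eq_zero]
      exact h
    have h2 := hjk (X j - X k) (Subalgebra.sub_mem _ (X_mem_supported.mpr (by simp))
      (X_mem_supported.mpr (by simp))) h1
    have h3 : (X j : MvPolynomial σ ℂ) = X k := sub_eq_zero.mp h2
    exact hne (X_injective h3)
  have hinj : ∀ B : Set σ, Indep P B → Set.InjOn x B := by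
    intro B hB a ha b hb hab
    by_contra hab'
    have h1 : (X a - X b : MvPolynomial σ ℂ) ∈ P := by
      rw [← Ideal.Quotient.eq_zero_iff_mem, map_sub, sub_eq_zero]
      exact hab
    have h2 := hB (X a - X b) (Subalgebra.sub_mem _ (X_mem_supported.mpr ha)
      (X_mem_supported.mpr hb)) h1
    exact hab' (X_injective (sub_eq_zero.mp h2))
  have : Nontrivial (MvPolynomial σ ℂ ⧸ P) := Ideal.Quotient.nontrivial_iff.mpr hP.ne_top
  have hdom : IsDomain (MvPolynomial σ ℂ ⧸ P) := Ideal.Quotient.isDomain P
  have hI : (AlgebraicIndependent.matroid ℂ (MvPolynomial σ ℂ ⧸ P)).Indep (x '' {i}) := by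
    rw [AlgebraicIndependent.matroid_indep_iff]
    exact (algebraicIndependent_image (hinj _ hi)).mp ((indep_iff P _).mp hi)
  have hJ : (AlgebraicIndependent.matroid ℂ (MvPolynomial σ ℂ ⧸ P)).Indep (x '' {j, k}) := by
    rw [AlgebraicIndependent.matroid_indep_iff]
    exact (algebraicIndependent_image (hinj _ hjk)).mp ((indep_iff P _).mp hjk)
  have hcard : (x '' {i}).encard < (x '' {j, k}).encard := by
    rw [Set.image_singleton, Set.encard_singleton, Set.image_pair, Set.encard_pair hxjk]
    norm_num
  obtain ⟨e, he, hind⟩ := hI.augment hJ hcard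
  rw [Set.image_pair, Set.image_singleton] at he
  obtain ⟨he1, he2⟩ := he
  have main : ∀ y : σ, e = x y → i ≠ y ∧ Indep P {i, y} := by
    intro y hy
    have hiy : i ≠ y := by
      intro h
      apply he2
      rw [hy, h]
      rfl
    refine ⟨hiy, ?_⟩
    have hxiy : x i ≠ x y := by
      intro h
      apply he2
      rw [hy, ← h]
      rfl
    rw [AlgebraicIndependent.matroid_indep_iff, hy] at hind
    have himg : insert (x y) (x '' {i}) = x '' {i, y} := by
      rw [Set.image_pair, Set.image_singleton, Set.pair_comm]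
    rw [himg] at hind
    have hinj2 : Set.InjOn x {i, y} := by
      intro a ha b hb hab
      simp only [Set.mem_insert_iff, Set.mem_singleton_iff] at ha hb
      rcases ha with rfl | rfl <;> rcases hb with rfl | rfl
      · rfl
      · exact absurd hab hxiy
      · exact absurd hab.symm hxiy
      · rfl
    exact (indep_iff P _).mpr ((algebraicIndependent_image hinj2).mpr hind)
  simp only [Set.mem_insert_iff, Set.mem_singleton_iff] at he1
  rcases he1 with he1 | he1
  · left; exact main j he1
  · right; exact main k he1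

end Pool.Agent.H340R2.Stab
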